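import Pool.Agent.P.MP_bb4f54_co.Tr.Base

set_option autoImplicit false
set_option linter.unusedSectionVars false

namespace Pool.Agent.P.MP_bb4f54_co.Tr

open SimpleGraph

variable {V : Type} {G : SimpleGraph V}

/-- `v` reaches a neighbour of a vertex of `T` through `X`. -/
inductive Root (G : SimpleGraph V) (X T : Set V) : V → Prop
  | base {v t : V} : G.Adj v t → t ∈ T → Root G X T v
  | step {v u : V} : G.Adj v u → u ∈ X → Root G X T u → Root G X T v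

lemma Root.drop {X T : Set V} (v : V) {u : V} (h : Root G X T u) :
    Root G (X \ {v}) T u ∨ Root G (X \ {v}) T v := by
  induction h with
  | base ha ht => exact Or.inl (.base ha ht)
  | @step a b ha hb _ ih =>
    rcases ih with ih | ih
    · by_cases e : b = v
      · subst e
        exact Or.inr ih
      · exact Or.inl (.step ha ⟨hb, e⟩ ih)
    · exact Or.inr ih

lemma Root.swap {X T : Set V} {v w u : V} (hw : ¬ Root G (X \ {v}) T w)
    (h : Root G (X \ {v}) T u) : Root G (X \ {w}) T u := by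
  induction h with
  | base ha ht => exact .base ha ht
  | @step a b ha hb hr ih =>
    refine .step ha ⟨hb.1, fun e => hw ?_⟩ ih
    rw [Set.mem_singleton_iff] at e
    rw [← e]
    exact hr

lemma Root.rin {X T Y : Set V} {v : V} (h : Root G X T v) (hT : T ⊆ Y) (hX : X ⊆ Y) :
    ∃ t ∈ T, RIn G Y v t := by
  induction h with
  | base ha ht => exact ⟨_, ht, RIn.rfl.tail ha (hT ht)⟩
  | step ha hb _ ih =>
    obtain ⟨t, ht, h1⟩ := ih
    exact ⟨t, ht, RIn.head ha (hX hb) h1⟩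

lemma root_of_measure {A T : Set V} (μ : V → ℕ)
    (h : ∀ v ∈ A, ∃ w, G.Adj v w ∧ (w ∈ T ∨ (w ∈ A ∧ μ w < μ v))) :
    ∀ v ∈ A, Root G A T v := by
  intro v
  induction hn : μ v using Nat.strong_induction_on generalizing v with
  | _ n ih =>
    intro hv
    obtain ⟨w, h1, h2 | ⟨h2, h3⟩⟩ := h v hv
    · exact .base h1 h2
    · exact .step h1 h2 (ih _ (hn ▸ h3) w rfl h2)

/-- Hypotheses of the crossing edge lemma. -/
structure STH (G : SimpleGraph V) (I P F : Set V) : Prop where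
  nb : ∀ v ∈ I, ∀ w, G.Adj v w → w ∈ I ∨ w ∈ P ∨ w ∈ F
  cut : ∀ (S : Set V) (v : V), S ⊆ I → S.Nonempty → v ∉ S →
    ∃ s ∈ S, ∃ w, G.Adj s w ∧ w ∉ S ∧ w ≠ v
  rP : ∀ v ∈ I, Root G I P v
  rF : ∀ v ∈ I, Root G I F v

variable [Finite V]

lemma STH.movable {I P F : Set V} (H : STH G I P F) {B : Set V} (hB : B ⊆ I) (hne : B.Nonempty)
    (hr : ∀ v ∈ B, Root G B F v) :
    ∃ v ∈ B, (∃ w, G.Adj v w ∧ (w ∈ P ∨ (w ∈ I ∧ w ∉ B))) ∧
      ∀ u ∈ B, Root G (B \ {v}) F u := by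
  have hself : ∀ v ∈ B, Root G (B \ {v}) F v := fun v hv => by
    rcases (hr v hv).drop v with h | h <;> exact h
  have hcand : ∀ u, Root G I P u → u ∈ B →
      ({v | v ∈ B ∧ ∃ w, G.Adj v w ∧ (w ∈ P ∨ (w ∈ I ∧ w ∉ B))} : Set V).Nonempty := by
    intro u hu
    induction hu with
    | @base a b ha ht => exact fun h => ⟨a, h, b, ha, Or.inl ht⟩
    | @step a b ha hb _ ih =>
      intro h
      by_cases e : b ∈ B
      · exact ih e
      · exact ⟨a, h, b, ha, Or.inr ⟨hb, e⟩⟩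
  obtain ⟨b, hb⟩ := hne
  obtain ⟨v, ⟨hv, hvw⟩, hmin⟩ := Set.exists_min_image _
    (fun v => ({u | u ∈ B ∧ ¬ Root G (B \ {v}) F u} : Set V).ncard) (Set.toFinite _)
    (hcand b (H.rP b (hB hb)) hb)
  refine ⟨v, hv, hvw, ?_⟩
  by_contra hcon
  push Not at hcon
  obtain ⟨u0, hu0, hu1⟩ := hcon
  obtain ⟨s, hs, w, hsw, hwS, hwv⟩ := H.cut {u | u ∈ B ∧ ¬ Root G (B \ {v}) F u} v
    (fun u hu => hB hu.1) ⟨u0, hu0, hu1⟩ (fun h => h.2 (hself v hv))
  have hwF : w ∉ F := fun h => hs.2 (.base hsw h)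
  have hwB : w ∉ B := fun h => by
    have h1 : Root G (B \ {v}) F w := by
      by_contra h1
      exact hwS ⟨h, h1⟩
    exact hs.2 (.step hsw ⟨h, hwv⟩ h1)
  have hsc : ∃ w, G.Adj s w ∧ (w ∈ P ∨ (w ∈ I ∧ w ∉ B)) := by
    rcases H.nb s (hB hs.1) w hsw with h | h | h
    · exact ⟨w, hsw, Or.inr ⟨h, hwB⟩⟩
    · exact ⟨w, hsw, Or.inl h⟩
    · exact absurd h hwF
  have h1 := hmin s ⟨hs.1, hsc⟩
  have h2 : ({u | u ∈ B ∧ ¬ Root G (B \ {s}) F u} : Set V) ⊂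
      {u | u ∈ B ∧ ¬ Root G (B \ {v}) F u} := by
    refine ⟨fun u hu => ⟨hu.1, fun h => hu.2 (Root.swap hs.2 h)⟩, fun h => ?_⟩
    exact (h hs).2 (hself s hs.1)
  have h3 := Set.ncard_lt_ncard h2 (Set.toFinite _)
  omega

lemma STH.numbering {I P F : Set V} (H : STH G I P F) (n : ℕ) : ∀ B : Set V, B.ncard = n →
    B ⊆ I → (∀ v ∈ B, Root G B F v) → ∃ ν : V → ℕ, Set.InjOn ν B ∧ ∀ v ∈ B,
      (∃ w, G.Adj v w ∧ (w ∈ P ∨ (w ∈ I ∧ w ∉ B) ∨ (w ∈ B ∧ ν w < ν v))) ∧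
      (∃ w, G.Adj v w ∧ (w ∈ F ∨ (w ∈ B ∧ ν v < ν w))) := by
  classical
  induction n with
  | zero =>
    intro B hn _ _
    have : B = ∅ := (Set.ncard_eq_zero (Set.toFinite _)).1 hn
    subst this
    exact ⟨fun _ => 0, by simp, by simp⟩
  | succ n ih =>
    intro B hn hB hr
    have hne : B.Nonempty := Set.nonempty_of_ncard_ne_zero (by omega)
    obtain ⟨v, hv, ⟨w0, hw0, hw1⟩, hmv⟩ := H.movable hB hne hr
    have hn' : (B \ {v}).ncard = n := by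
      rw [Set.ncard_sdiff_singleton_of_mem hv, hn]
      rfl
    obtain ⟨ν, hν, hν'⟩ := ih (B \ {v}) hn' (fun u hu => hB hu.1) (fun u hu => hmv u hu.1)
    refine ⟨fun u => if u = v then 0 else ν u + 1, ?_, ?_⟩
    · intro a ha b hb hab
      by_cases e1 : a = v <;> by_cases e2 : b = v
      · rw [e1, e2]
      · simp [e1, e2] at hab
      · simp [e1, e2] at hab
      · simp only [e1, e2, if_false] at hab
        exact hν ⟨ha, e1⟩ ⟨hb, e2⟩ (by omega)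
    · intro u hu
      by_cases e : u = v
      · subst e
        refine ⟨⟨w0, hw0, ?_⟩, ?_⟩
        · rcases hw1 with h | h
          · exact Or.inl h
          · exact Or.inr (Or.inl h)
        · cases hmv u hu with
          | base ha ht => exact ⟨_, ha, Or.inl ht⟩
          | @step _ b ha hb _ =>
            have e2 : b ≠ u := hb.2
            exact ⟨b, ha, Or.inr ⟨hb.1, by simp [e2]⟩⟩
      · obtain ⟨⟨w, h1, h2⟩, ⟨w', h3, h4⟩⟩ := hν' u ⟨hu, e⟩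
        refine ⟨⟨w, h1, ?_⟩, ⟨w', h3, ?_⟩⟩
        · rcases h2 with h | ⟨h, h'⟩ | ⟨h, h'⟩
          · exact Or.inl h
          · by_cases e2 : w = v
            · exact Or.inr (Or.inr ⟨e2 ▸ hv, by simp [e, e2]⟩)
            · exact Or.inr (Or.inl ⟨h, fun hw => h' ⟨hw, e2⟩⟩)
          · have e2 : w ≠ v := h.2
            exact Or.inr (Or.inr ⟨h.1, by simp [e, e2, h']⟩)
        · rcases h4 with h | ⟨h, h'⟩
          · exact Or.inl h
          · have e2 : w' ≠ v := h.2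
            exact Or.inr ⟨h.1, by simp [e, e2, h']⟩

lemma STH.cross {I P F Z : Set V} (H : STH G I P F)
    (h3 : ∀ v, ∃ a b c, G.Adj v a ∧ G.Adj v b ∧ G.Adj v c ∧ a ≠ b ∧ a ≠ c ∧ b ≠ c)
    (hZ : Z ⊆ I) (hZne : Z.Nonempty)
    (hZ2 : ∀ v ∈ Z, ∃ a ∈ Z, ∃ b ∈ Z, a ≠ b ∧ G.Adj v a ∧ G.Adj v b) :
    ∃ (x y : V) (A B : Set V), x ∈ I ∧ y ∈ I ∧ G.Adj x y ∧ A ⊆ I ∧ B ⊆ I ∧
      (∀ v ∈ A, v ∉ B) ∧ x ∉ A ∧ x ∉ B ∧ y ∉ A ∧ y ∉ B ∧
      Root G A P x ∧ Root G A P y ∧ Root G B F x ∧ Root G B F y := by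
  obtain ⟨ν, hν, hν'⟩ := H.numbering _ I rfl (fun _ h => h) H.rF
  have hlo : ∀ v ∈ I, ∃ w, G.Adj v w ∧ (w ∈ P ∨ (w ∈ I ∧ ν w < ν v)) := fun v hv => by
    obtain ⟨w, h1, h2 | h2 | h2⟩ := (hν' v hv).1
    · exact ⟨w, h1, Or.inl h2⟩
    · exact absurd h2.1 h2.2
    · exact ⟨w, h1, Or.inr h2⟩
  have hhi : ∀ v ∈ I, ∃ w, G.Adj v w ∧ (w ∈ F ∨ (w ∈ I ∧ ν v < ν w)) := fun v hv => (hν' v hv).2
  let M : V → V → Prop := fun a b => a ∈ I ∧ b ∈ I ∧ G.Adj a b ∧ ν a < ν b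
  let U : V → Prop := fun v => ∃ a b, a ≠ b ∧ G.Adj v a ∧ G.Adj v b ∧
    (a ∈ F ∨ (a ∈ I ∧ ν v < ν a)) ∧ (b ∈ F ∨ (b ∈ I ∧ ν v < ν b))
  let L : V → Prop := fun v => ∃ a b, a ≠ b ∧ G.Adj v a ∧ G.Adj v b ∧
    (a ∈ P ∨ (a ∈ I ∧ ν a < ν v)) ∧ (b ∈ P ∨ (b ∈ I ∧ ν b < ν v))
  have hlt : ∀ a b, Relation.TransGen M a b → a ∈ I ∧ b ∈ I ∧ ν a < ν b := by
    intro a b h
    induction h with
    | single h => exact ⟨h.1, h.2.1, h.2.2.2⟩
    | tail _ h ih => exact ⟨ih.1, h.2.1, ih.2.2.trans h.2.2.2⟩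
  have hne : ∀ v ∈ I, ∀ w ∈ I, G.Adj v w → ν v < ν w ∨ ν w < ν v := fun v hv w hw h =>
    Nat.lt_or_gt_of_ne (fun e => h.ne (hν hv hw e))
  have hside : ∀ v ∈ I, ∀ w, G.Adj v w →
      (w ∈ F ∨ (w ∈ I ∧ ν v < ν w)) ∨ (w ∈ P ∨ (w ∈ I ∧ ν w < ν v)) := fun v hv w h => by
    rcases H.nb v hv w h with h1 | h1 | h1
    · rcases hne v hv w h1 h with h2 | h2
      · exact Or.inl (Or.inr ⟨h1, h2⟩)
      · exact Or.inr (Or.inr ⟨h1, h2⟩)
    · exact Or.inr (Or.inl h1)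
    · exact Or.inl (Or.inl h1)
  have hUL : ∀ v ∈ I, U v ∨ L v := fun v hv => by
    obtain ⟨a, b, c, ha, hb, hc, hab, hac, hbc⟩ := h3 v
    rcases hside v hv a ha with h1 | h1 <;> rcases hside v hv b hb with h2 | h2
    · exact Or.inl ⟨a, b, hab, ha, hb, h1, h2⟩
    · rcases hside v hv c hc with h4 | h4
      · exact Or.inl ⟨a, c, hac, ha, hc, h1, h4⟩
      · exact Or.inr ⟨b, c, hbc, hb, hc, h2, h4⟩
    · rcases hside v hv c hc with h4 | h4
      · exact Or.inl ⟨b, c, hbc, hb, hc, h2, h4⟩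
      · exact Or.inr ⟨a, c, hac, ha, hc, h1, h4⟩
    · exact Or.inr ⟨a, b, hab, ha, hb, h1, h2⟩
  have hex : ({p | U p.1 ∧ L p.2 ∧ Relation.TransGen M p.1 p.2} : Set (V × V)).Nonempty := by
    obtain ⟨a, ha, hamin⟩ := Set.exists_min_image Z ν (Set.toFinite _) hZne
    obtain ⟨a1, ha1, a2, ha2, h12, h1, h2⟩ := hZ2 a ha
    have g1 : ν a < ν a1 := by
      have := hamin a1 ha1
      have := hne a (hZ ha) a1 (hZ ha1) h1
      omega
    have g2 : ν a < ν a2 := by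
      have := hamin a2 ha2
      have := hne a (hZ ha) a2 (hZ ha2) h2
      omega
    obtain ⟨b, hb, hbmax⟩ := Set.exists_max_image {w | w ∈ Z ∧ Relation.TransGen M a w} ν
      (Set.toFinite _) ⟨a1, ha1, .single ⟨hZ ha, hZ ha1, h1, g1⟩⟩
    obtain ⟨b1, hb1, b2, hb2, h12', h1', h2'⟩ := hZ2 b hb.1
    have g : ∀ w ∈ Z, G.Adj b w → ν w < ν b := fun w hw h => by
      rcases hne b (hZ hb.1) w (hZ hw) h with h4 | h4
      · have := hbmax w ⟨hw, hb.2.tail ⟨hZ hb.1, hZ hw, h, h4⟩⟩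
        omega
      · exact h4
    exact ⟨(a, b), ⟨a1, a2, h12, h1, h2, Or.inr ⟨hZ ha1, g1⟩, Or.inr ⟨hZ ha2, g2⟩⟩,
      ⟨b1, b2, h12', h1', h2', Or.inr ⟨hZ hb1, g b1 hb1 h1'⟩, Or.inr ⟨hZ hb2, g b2 hb2 h2'⟩⟩, hb.2⟩
  obtain ⟨⟨x, y⟩, ⟨hU, hL, hxy⟩, hmin⟩ := Set.exists_min_image _
    (fun p : V × V => ν p.2 - ν p.1) (Set.toFinite _) hex
  simp only at hU hL hxy hmin
  have hno : ∀ c, Relation.TransGen M x c → Relation.TransGen M c y → False := by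
    intro c h1 h2
    have g1 := hlt _ _ h1
    have g2 := hlt _ _ h2
    rcases hUL c g1.2.1 with h | h
    · have := hmin (c, y) ⟨h, hL, h2⟩
      simp only at this
      omega
    · have := hmin (x, c) ⟨hU, h, h1⟩
      simp only at this
      omega
  have hM : M x y := by
    cases hxy with
    | single h => exact h
    | tail h1 h2 => exact (hno _ h1 (.single h2)).elim
  have hx := hM.1
  have hy := hM.2.1
  have hνxy := hM.2.2.2
  obtain ⟨K, hK⟩ : ∃ K, ∀ v, ν v ≤ K := by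
    obtain ⟨K, hK⟩ := (Set.finite_range ν).bddAbove
    exact ⟨K, fun v => hK ⟨v, rfl⟩⟩
  have hA : ∀ v ∈ ({v | v ≠ x ∧ (Relation.TransGen M v x ∨ Relation.TransGen M v y)} : Set V),
      Root G {v | v ≠ x ∧ (Relation.TransGen M v x ∨ Relation.TransGen M v y)} P v := by
    refine root_of_measure ν ?_
    rintro v ⟨hv1, hv2⟩
    have hvI : v ∈ I := by rcases hv2 with h | h <;> exact (hlt _ _ h).1
    obtain ⟨w, h1, h2 | ⟨h2, h4⟩⟩ := hlo v hvI
    · exact ⟨w, h1, Or.inl h2⟩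
    · have hwv : M w v := ⟨h2, hvI, h1.symm, h4⟩
      refine ⟨w, h1, Or.inr ⟨⟨?_, ?_⟩, h4⟩⟩
      · rintro rfl
        rcases hv2 with h | h
        · have := hlt _ _ h
          omega
        · exact hno v (.single hwv) h
      · rcases hv2 with h | h
        · exact Or.inl (.head hwv h)
        · exact Or.inr (.head hwv h)
  have hB : ∀ v ∈ ({v | v ≠ y ∧ (Relation.TransGen M x v ∨ Relation.TransGen M y v)} : Set V),
      Root G {v | v ≠ y ∧ (Relation.TransGen M x v ∨ Relation.TransGen M y v)} F v := by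
    refine root_of_measure (fun v => K - ν v) ?_
    rintro v ⟨hv1, hv2⟩
    have hvI : v ∈ I := by rcases hv2 with h | h <;> exact (hlt _ _ h).2.1
    obtain ⟨w, h1, h2 | ⟨h2, h4⟩⟩ := hhi v hvI
    · exact ⟨w, h1, Or.inl h2⟩
    · have hwv : M v w := ⟨hvI, h2, h1, h4⟩
      refine ⟨w, h1, Or.inr ⟨⟨?_, ?_⟩, ?_⟩⟩
      · rintro rfl
        rcases hv2 with h | h
        · exact hno v h (.single hwv)
        · have := hlt _ _ h
          omega
      · rcases hv2 with h | h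
        · exact Or.inl (h.tail hwv)
        · exact Or.inr (h.tail hwv)
      · have := hK w
        omega
  refine ⟨x, y, {v | v ≠ x ∧ (Relation.TransGen M v x ∨ Relation.TransGen M v y)},
    {v | v ≠ y ∧ (Relation.TransGen M x v ∨ Relation.TransGen M y v)}, hx, hy, hM.2.2.1,
    ?_, ?_, ?_, fun h => h.1 rfl, ?_, ?_, fun h => h.1 rfl, ?_, ?_, ?_, ?_⟩
  · rintro v ⟨_, h | h⟩ <;> exact (hlt _ _ h).1
  · rintro v ⟨_, h | h⟩ <;> exact (hlt _ _ h).2.1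
  · rintro v ⟨_, h1⟩ ⟨_, h2⟩
    rcases h1 with h1 | h1 <;> rcases h2 with h2 | h2
    · have := hlt _ _ h1
      have := hlt _ _ h2
      omega
    · have := hlt _ _ h1
      have := hlt _ _ h2
      omega
    · exact hno v h2 h1
    · have := hlt _ _ h1
      have := hlt _ _ h2
      omega
  · rintro ⟨_, h | h⟩
    · have := hlt _ _ h
      omega
    · have := hlt _ _ h
      omega
  · rintro ⟨_, h | h⟩
    · have := hlt _ _ h
      omega
    · have := hlt _ _ h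
      omega
  · obtain ⟨w, h1, h2 | ⟨h2, h4⟩⟩ := hlo x hx
    · exact .base h1 h2
    · have hw : w ≠ x ∧ (Relation.TransGen M w x ∨ Relation.TransGen M w y) :=
        ⟨h1.ne.symm, Or.inl (.single ⟨h2, hx, h1.symm, h4⟩)⟩
      exact .step h1 hw (hA w hw)
  · obtain ⟨w, h0, h1, h2⟩ : ∃ w, w ≠ x ∧ G.Adj y w ∧ (w ∈ P ∨ (w ∈ I ∧ ν w < ν y)) := by
      obtain ⟨a, b, hab, ha, hb, ha', hb'⟩ := hL
      by_cases e : a = x
      · exact ⟨b, fun e' => hab (e.trans e'.symm), hb, hb'⟩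
      · exact ⟨a, e, ha, ha'⟩
    rcases h2 with h2 | ⟨h2, h4⟩
    · exact .base h1 h2
    · have hw : w ≠ x ∧ (Relation.TransGen M w x ∨ Relation.TransGen M w y) :=
        ⟨h0, Or.inr (.single ⟨h2, hy, h1.symm, h4⟩)⟩
      exact .step h1 hw (hA w hw)
  · obtain ⟨w, h0, h1, h2⟩ : ∃ w, w ≠ y ∧ G.Adj x w ∧ (w ∈ F ∨ (w ∈ I ∧ ν x < ν w)) := by
      obtain ⟨a, b, hab, ha, hb, ha', hb'⟩ := hU
      by_cases e : a = y
      · exact ⟨b, fun e' => hab (e.trans e'.symm), hb, hb'⟩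
      · exact ⟨a, e, ha, ha'⟩
    rcases h2 with h2 | ⟨h2, h4⟩
    · exact .base h1 h2
    · have hw : w ≠ y ∧ (Relation.TransGen M x w ∨ Relation.TransGen M y w) :=
        ⟨h0, Or.inl (.single ⟨hx, h2, h1, h4⟩)⟩
      exact .step h1 hw (hB w hw)
  · obtain ⟨w, h1, h2 | ⟨h2, h4⟩⟩ := hhi y hy
    · exact .base h1 h2
    · have hw : w ≠ y ∧ (Relation.TransGen M x w ∨ Relation.TransGen M y w) :=
        ⟨h1.ne.symm, Or.inr (.single ⟨hy, h2, h1, h4⟩)⟩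
      exact .step h1 hw (hB w hw)

end Pool.Agent.P.MP_bb4f54_co.Tr
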