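import Mathlib

set_option autoImplicit false
set_option linter.unusedSectionVars false

namespace Pool.Agent.P.MP_bb4f54_co.Tr

open SimpleGraph

variable {V : Type} {G : SimpleGraph V}

lemma path_append {a b c : V} {p : G.Walk a b} {q : G.Walk b c} (hp : p.IsPath)
    (hq : q.IsPath) (h : ∀ x ∈ p.support, x ∈ q.support → x = b) : (p.append q).IsPath := by
  rw [Walk.isPath_def, Walk.support_append, List.nodup_append']
  refine ⟨hp.support_nodup, hq.support_nodup.tail, fun x hx hx' => ?_⟩
  have := h x hx (List.mem_of_mem_tail hx')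
  subst this
  have h2 := hq.support_nodup
  rw [← Walk.cons_tail_support, List.nodup_cons] at h2
  exact h2.1 hx'

lemma cycle_append {a b : V} {p : G.Walk a b} {q : G.Walk b a} (hp : p.IsPath)
    (hq : q.IsPath) (h : ∀ x ∈ p.support, x ∈ q.support → x = a ∨ x = b) (h2 : 2 ≤ p.length) :
    (p.append q).IsCycle := by
  refine hp.isCycle_append hq (fun x hx hx' => ?_) (Or.inl h2)
  rcases h x (List.mem_of_mem_tail hx) (List.mem_of_mem_tail hx') with rfl | rfl
  · have h2 := hp.support_nodup
    rw [← Walk.cons_tail_support, List.nodup_cons] at h2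
    exact h2.1 hx
  · have h2 := hq.support_nodup
    rw [← Walk.cons_tail_support, List.nodup_cons] at h2
    exact h2.1 hx'

/-- The graph has a cycle of length `t`. -/
def Cyc (G : SimpleGraph V) (t : ℕ) : Prop :=
  ∃ (v : V) (c : G.Walk v v), c.IsCycle ∧ c.length = t

lemma dist_adj_le (hc : G.Connected) (z : V) {u v : V} (h : G.Adj u v) :
    G.dist z v ≤ G.dist z u + 1 := by
  have h0 := hc.dist_triangle (u := z) (v := u) (w := v)
  have h1 : G.dist u v = 1 := dist_eq_one_iff_adj.2 h
  omega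

lemma exists_parent (hc : G.Connected) {z v : V} {n : ℕ} (h : G.dist z v = n + 1) :
    ∃ u, G.Adj v u ∧ G.dist z u = n := by
  obtain ⟨p, hp⟩ := hc.exists_walk_length_eq_dist v z
  rw [dist_comm, h] at hp
  cases p with
  | nil => simp at hp
  | cons hadj p' =>
    refine ⟨_, hadj, ?_⟩
    have h1 := dist_le p'
    have h2 := dist_adj_le hc z hadj.symm
    rw [dist_comm] at h1
    simp only [Walk.length_cons] at hp
    omega

lemma dist_tri (hc : G.Connected) (a b c : V) : G.dist a c ≤ G.dist a b + G.dist b c :=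
  hc.dist_triangle

lemma dist_iso_le (hc : G.Connected) (φ : G ≃g G) (a b : V) :
    G.dist (φ a) (φ b) ≤ G.dist a b := by
  obtain ⟨p, hp⟩ := hc.exists_walk_length_eq_dist a b
  have := dist_le (p.map φ.toHom)
  rw [Walk.length_map, hp] at this
  exact this

lemma dist_iso (hc : G.Connected) (φ : G ≃g G) (a b : V) :
    G.dist (φ a) (φ b) = G.dist a b := by
  refine le_antisymm (dist_iso_le hc φ a b) ?_
  have := dist_iso_le hc φ.symm (φ a) (φ b)
  simpa using this

/-- `b` is reached from `a` by a walk all of whose vertices after the first lie in `X`. -/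
def RIn (G : SimpleGraph V) (X : Set V) : V → V → Prop :=
  Relation.ReflTransGen (fun u v => G.Adj u v ∧ v ∈ X)

lemma RIn.rfl {X : Set V} {a : V} : RIn G X a a := Relation.ReflTransGen.refl

lemma RIn.tail {X : Set V} {a b c : V} (h : RIn G X a b) (h1 : G.Adj b c) (h2 : c ∈ X) :
    RIn G X a c := Relation.ReflTransGen.tail h ⟨h1, h2⟩

lemma RIn.head {X : Set V} {a b c : V} (h1 : G.Adj a b) (h2 : b ∈ X) (h : RIn G X b c) :
    RIn G X a c := Relation.ReflTransGen.head ⟨h1, h2⟩ h

lemma RIn.trans {X : Set V} {a b c : V} (h : RIn G X a b) (h' : RIn G X b c) : RIn G X a c :=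
  Relation.ReflTransGen.trans h h'

lemma RIn.mono {X Y : Set V} (hXY : X ⊆ Y) {a b : V} (h : RIn G X a b) : RIn G Y a b := by
  induction h with
  | refl => exact RIn.rfl
  | tail _ h1 ih => exact ih.tail h1.1 (hXY h1.2)

lemma RIn.mem {X : Set V} {a b : V} (h : RIn G X a b) : b = a ∨ b ∈ X := by
  induction h with
  | refl => exact Or.inl _root_.rfl
  | tail _ h1 _ => exact Or.inr h1.2

lemma RIn.mem' {X : Set V} {a b : V} (h : RIn G X a b) (ha : a ∈ X) : b ∈ X := by
  rcases h.mem with h1 | h1
  · rw [h1]; exact ha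
  · exact h1

lemma RIn.symm {X : Set V} {a b : V} (h : RIn G X a b) (ha : a ∈ X) : RIn G X b a := by
  induction h with
  | refl => exact RIn.rfl
  | tail h0 h1 ih => exact RIn.head h1.1.symm (RIn.mem' h0 ha) ih

lemma RIn.map {X Y : Set V} (φ : G ≃g G) (hXY : ∀ v ∈ X, φ v ∈ Y) {a b : V} (h : RIn G X a b) :
    RIn G Y (φ a) (φ b) := by
  induction h with
  | refl => exact RIn.rfl
  | tail _ h1 ih => exact ih.tail (φ.map_adj_iff.2 h1.1) (hXY _ h1.2)

lemma RIn.walk {X : Set V} {a b : V} (h : RIn G X a b) :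
    ∃ p : G.Walk a b, ∀ x ∈ p.support, x = a ∨ x ∈ X := by
  induction h with
  | refl => exact ⟨Walk.nil, by simp⟩
  | tail _ h1 ih =>
    obtain ⟨p, hp⟩ := ih
    refine ⟨p.concat h1.1, fun x hx => ?_⟩
    rw [Walk.support_concat] at hx
    simp only [List.mem_append, List.mem_singleton] at hx
    rcases hx with hx | rfl
    · exact hp x hx
    · exact Or.inr h1.2

lemma RIn.path {X : Set V} {a b : V} (h : RIn G X a b) :
    ∃ p : G.Walk a b, p.IsPath ∧ ∀ x ∈ p.support, x = a ∨ x ∈ X := by
  classical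
  obtain ⟨p, hp⟩ := h.walk
  exact ⟨p.bypass, p.bypass_isPath, fun x hx => hp x (p.support_bypass_subset_support hx)⟩

lemma rin_of_induce {v a b : V} (h : (G.induce ({v}ᶜ : Set V)).Connected) (ha : a ≠ v)
    (hb : b ≠ v) : RIn G {v}ᶜ a b := by
  obtain ⟨p⟩ := h.preconnected ⟨a, ha⟩ ⟨b, hb⟩
  have key : ∀ (x y : ({v}ᶜ : Set V)) (q : (G.induce ({v}ᶜ : Set V)).Walk x y),
      RIn G {v}ᶜ x.1 y.1 := by
    intro x y q
    induction q with
    | nil => exact RIn.rfl
    | @cons x1 x2 _ hadj _ ih => exact RIn.head hadj x2.2 ih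
  exact key _ _ p

lemma RIn.exit {X S : Set V} {a b : V} (h : RIn G X a b) (ha : a ∈ S) (hb : b ∉ S) :
    ∃ s ∈ S, ∃ w, G.Adj s w ∧ w ∉ S ∧ w ∈ X := by
  induction h with
  | refl => exact absurd ha hb
  | @tail u w _ h1 ih =>
    by_cases hu : u ∈ S
    · exact ⟨u, hu, w, h1.1, hb, h1.2⟩
    · exact ih hu

section Fin

variable [Fintype V]

/-- Neighbours as a finite set. -/
noncomputable def NB (G : SimpleGraph V) (v : V) : Finset V := by
  classical exact Finset.univ.filter (fun w => G.Adj v w)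

lemma mem_NB {v w : V} : w ∈ NB G v ↔ G.Adj v w := by
  classical
  simp [NB]

lemma card_NB [DecidableRel G.Adj] (v : V) : (NB G v).card = G.degree v := by
  rw [← card_neighborFinset_eq_degree]
  congr 1
  ext w
  rw [mem_NB, mem_neighborFinset]

/-- Vertices reached by walks of length at most `n`. -/
noncomputable def BW (G : SimpleGraph V) (v : V) (n : ℕ) : Finset V := by
  classical exact Finset.univ.filter (fun w => ∃ p : G.Walk v w, p.length ≤ n)

lemma mem_BW {v w : V} {n : ℕ} : w ∈ BW G v n ↔ ∃ p : G.Walk v w, p.length ≤ n := by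
  classical
  simp [BW]

lemma card_BW {d : ℕ} (hd : ∀ v, (NB G v).card ≤ d) (n : ℕ) :
    ∀ v, (BW G v n).card ≤ (d + 1) ^ n := by
  classical
  induction n with
  | zero =>
    intro v
    have : BW G v 0 ⊆ {v} := by
      intro w hw
      obtain ⟨p, hp⟩ := mem_BW.1 hw
      have := Walk.eq_of_length_eq_zero (Nat.le_zero.1 hp)
      simp [this]
    simpa using Finset.card_le_card this
  | succ n ih =>
    intro v
    have : BW G v (n + 1) ⊆ (insert v (NB G v)).biUnion (fun u => BW G u n) := by
      intro w hw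
      obtain ⟨p, hp⟩ := mem_BW.1 hw
      cases p with
      | nil =>
        exact Finset.mem_biUnion.2 ⟨v, Finset.mem_insert_self _ _, mem_BW.2 ⟨Walk.nil, by simp⟩⟩
      | cons h p' =>
        refine Finset.mem_biUnion.2 ⟨_, Finset.mem_insert_of_mem (mem_NB.2 h), mem_BW.2 ⟨p', ?_⟩⟩
        simp only [Walk.length_cons] at hp
        omega
    refine (Finset.card_le_card this).trans ?_
    refine (Finset.card_biUnion_le_card_mul _ _ _ (fun u _ => ih u)).trans ?_
    have h1 : (insert v (NB G v)).card ≤ d + 1 :=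
      (Finset.card_insert_le _ _).trans (Nat.succ_le_succ (hd v))
    rw [pow_succ, mul_comm ((d + 1) ^ n)]
    exact Nat.mul_le_mul_right _ h1

lemma mem_BW_of_dist (hc : G.Connected) {v w : V} {n : ℕ} (h : G.dist v w ≤ n) :
    w ∈ BW G v n := by
  obtain ⟨p, hp⟩ := hc.exists_walk_length_eq_dist v w
  exact mem_BW.2 ⟨p, hp ▸ h⟩

lemma path_length_le {a b : V} {p : G.Walk a b} (hp : p.IsPath) {W : Finset V}
    (h : ∀ x ∈ p.support, x ∈ W) : p.length ≤ W.card := by
  classical
  have h1 : p.support.toFinset.card = p.support.length :=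
    List.toFinset_card_of_nodup hp.support_nodup
  have h2 : p.support.toFinset ⊆ W := fun x hx => h x (List.mem_toFinset.1 hx)
  have h3 := Finset.card_le_card h2
  rw [h1, Walk.length_support] at h3
  omega

lemma exists_far (hc : G.Connected) {d n : ℕ} (hd : ∀ v, (NB G v).card ≤ d)
    (hn : (d + 1) ^ n < Fintype.card V) (o : V) : ∃ v, n < G.dist o v := by
  by_contra hcon
  push Not at hcon
  have h1 : (Finset.univ : Finset V) ⊆ BW G o n := fun v _ => mem_BW_of_dist hc (hcon v)
  have h2 := (Finset.card_le_card h1).trans (card_BW hd n o)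
  rw [Finset.card_univ] at h2
  omega

end Fin

end Pool.Agent.P.MP_bb4f54_co.Tr
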