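import Pool.Agent.P.MP_bb4f54_co.Tr.Base

set_option autoImplicit false
set_option linter.unusedSectionVars false

namespace Pool.Agent.P.MP_bb4f54_co.Tr

open SimpleGraph

variable {V : Type} {G : SimpleGraph V}

lemma trail_edge {H : SimpleGraph V} {v w a b : V} (p : (H ⊔ edge v w).Walk a b) (hp : p.IsTrail) :
    (s(v, w) ∉ p.edges ∧ ∃ q : H.Walk a b, q.length = p.length) ∨
      (∃ (q : H.Walk a v) (q' : H.Walk w b), q.length + q'.length ≤ p.length) ∨
      (∃ (q : H.Walk a w) (q' : H.Walk v b), q.length + q'.length ≤ p.length) := by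
  induction p with
  | nil => exact Or.inl ⟨by simp, Walk.nil, rfl⟩
  | @cons x y c h p ih =>
    have hp' := hp.of_cons
    have hnd := hp.edges_nodup
    rw [Walk.edges_cons, List.nodup_cons] at hnd
    by_cases e : s(x, y) = s(v, w)
    · have h1 : s(v, w) ∉ p.edges := e ▸ hnd.1
      have h2 : ∀ e' ∈ p.edges, e' ∈ H.edgeSet := by
        intro e' he'
        have h3 := p.edges_subset_edgeSet he'
        induction e' using Sym2.ind with
        | _ s t =>
          rw [mem_edgeSet, sup_adj, edge_adj] at h3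
          rcases h3 with h3 | ⟨⟨rfl, rfl⟩ | ⟨rfl, rfl⟩, _⟩
          · exact h3
          · exact absurd he' h1
          · exact absurd (Sym2.eq_swap ▸ he') h1
      have h4 : (p.transfer H h2).length = p.length := Walk.length_transfer _ _
      rcases Sym2.eq_iff.1 e with ⟨rfl, rfl⟩ | ⟨rfl, rfl⟩
      · exact Or.inr (Or.inl ⟨Walk.nil, p.transfer H h2, by simp⟩)
      · exact Or.inr (Or.inr ⟨Walk.nil, p.transfer H h2, by simp⟩)
    · have h1 : H.Adj x y := by
        have h3 := h
        rw [sup_adj, edge_adj] at h3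
        rcases h3 with h3 | ⟨⟨rfl, rfl⟩ | ⟨rfl, rfl⟩, _⟩
        · exact h3
        · exact absurd rfl e
        · exact absurd Sym2.eq_swap e
      rcases ih hp' with ⟨h2, q, hq⟩ | ⟨q, q', hq⟩ | ⟨q, q', hq⟩
      · refine Or.inl ⟨?_, Walk.cons h1 q, by simp [hq]⟩
        rw [Walk.edges_cons, List.mem_cons]
        rintro (h3 | h3)
        · exact e h3.symm
        · exact h2 h3
      · exact Or.inr (Or.inl ⟨Walk.cons h1 q, q', by simp only [Walk.length_cons]; omega⟩)
      · exact Or.inr (Or.inr ⟨Walk.cons h1 q, q', by simp only [Walk.length_cons]; omega⟩)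

lemma girth_add_edge {H : SimpleGraph V} {v w : V} {g : ℕ} (hH : (g : ℕ∞) ≤ H.egirth)
    (hfar : ∀ p : H.Walk v w, g < p.length) : (g : ℕ∞) ≤ (H ⊔ edge v w).egirth := by
  rw [le_egirth]
  intro a c hc
  by_contra hlt
  have h0 : c.length < g := by
    rw [not_le] at hlt
    exact_mod_cast hlt
  rcases trail_edge c hc.isTrail with ⟨h1, _⟩ | ⟨q, q', hq⟩ | ⟨q, q', hq⟩
  · have h2 : ∀ e' ∈ c.edges, e' ∈ H.edgeSet := by
      intro e' he'
      have h3 := c.edges_subset_edgeSet he'
      induction e' using Sym2.ind with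
      | _ s t =>
        rw [mem_edgeSet, sup_adj, edge_adj] at h3
        rcases h3 with h3 | ⟨⟨rfl, rfl⟩ | ⟨rfl, rfl⟩, _⟩
        · exact h3
        · exact absurd he' h1
        · exact absurd (Sym2.eq_swap ▸ he') h1
    have h4 := le_egirth.1 hH a (c.transfer H h2) (hc.transfer h2)
    rw [Walk.length_transfer] at h4
    exact hlt h4
  · have := hfar (q'.append q).reverse
    rw [Walk.length_reverse, Walk.length_append] at this
    omega
  · have := hfar (q'.append q)
    rw [Walk.length_append] at this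
    omega

variable [Fintype V]

lemma exists_sparse (G : SimpleGraph V) (g D : ℕ) : ∃ H : SimpleGraph V, H ≤ G ∧
    (∀ v, (NB H v).card ≤ D) ∧ (g : ℕ∞) ≤ H.egirth ∧ ∀ v w, G.Adj v w → (NB H v).card < D →
      (NB H w).card < D → w ∈ BW H v (g + 1) := by
  classical
  obtain ⟨H, hH⟩ := Set.Finite.exists_maximal (Set.toFinite {H : SimpleGraph V | H ≤ G ∧
    (∀ v, (NB H v).card ≤ D) ∧ (g : ℕ∞) ≤ H.egirth}) ⟨⊥, bot_le, fun v => by
      have : NB (⊥ : SimpleGraph V) v = ∅ := by
        ext w
        simp [mem_NB]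
      simp [this], by simp⟩
  obtain ⟨h1, h2, h3⟩ := hH.prop
  refine ⟨H, h1, h2, h3, fun v w hvw hv hw => ?_⟩
  by_contra hcon
  rw [mem_BW] at hcon
  push Not at hcon
  have h4 : H ⊔ edge v w ≤ H := by
    refine hH.le_of_ge (y := H ⊔ edge v w) ⟨sup_le h1 ?_, fun u => ?_,
      girth_add_edge h3 (fun p => by have := hcon p; omega)⟩ le_sup_left
    · intro a b hab
      rw [edge_adj] at hab
      rcases hab with ⟨⟨rfl, rfl⟩ | ⟨rfl, rfl⟩, _⟩
      · exact hvw
      · exact hvw.symm
    · by_cases e1 : u = v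
      · subst e1
        have : NB (H ⊔ edge u w) u ⊆ insert w (NB H u) := by
          intro x hx
          rw [mem_NB, sup_adj, edge_adj] at hx
          rcases hx with hx | ⟨⟨_, rfl⟩ | ⟨_, rfl⟩, hx⟩
          · exact Finset.mem_insert_of_mem (mem_NB.2 hx)
          · exact Finset.mem_insert_self _ _
          · exact absurd rfl hx
        exact ((Finset.card_le_card this).trans (Finset.card_insert_le _ _)).trans hv
      · by_cases e2 : u = w
        · subst e2
          have : NB (H ⊔ edge v u) u ⊆ insert v (NB H u) := by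
            intro x hx
            rw [mem_NB, sup_adj, edge_adj] at hx
            rcases hx with hx | ⟨⟨h, _⟩ | ⟨_, rfl⟩, hx⟩
            · exact Finset.mem_insert_of_mem (mem_NB.2 hx)
            · exact absurd h e1
            · exact Finset.mem_insert_self _ _
          exact ((Finset.card_le_card this).trans (Finset.card_insert_le _ _)).trans hw
        · have : NB (H ⊔ edge v w) u ⊆ NB H u := by
            intro x hx
            rw [mem_NB, sup_adj, edge_adj] at hx
            rcases hx with hx | ⟨⟨h, _⟩ | ⟨h, _⟩, hx⟩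
            · exact mem_NB.2 hx
            · exact absurd h e1
            · exact absurd h e2
          exact (Finset.card_le_card this).trans (h2 u)
  have h5 : H.Adj v w := h4 (Or.inr ((edge_adj _ _ _ _).2 ⟨Or.inl ⟨rfl, rfl⟩, hvw.ne⟩))
  have := hcon h5.toWalk
  simp at this

lemma dense_core (H : SimpleGraph V)
    (h : 4 * Fintype.card V < ∑ v, (NB H v).card) :
    ∃ X : Finset V, X.Nonempty ∧ ∀ v ∈ X, ∃ a ∈ X, ∃ b ∈ X, ∃ c ∈ X,
      H.Adj v a ∧ H.Adj v b ∧ H.Adj v c ∧ a ≠ b ∧ a ≠ c ∧ b ≠ c := by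
  classical
  let e : Finset V → ℕ := fun X => ∑ a ∈ X, ∑ b ∈ X, if H.Adj a b then 1 else 0
  have hu : 4 * (Finset.univ : Finset V).card < e Finset.univ := by
    refine h.trans_eq (Finset.sum_congr rfl (fun v _ => ?_))
    rw [← Finset.card_filter]
    rfl
  obtain ⟨X, hX, hmin⟩ := Set.exists_min_image {X : Finset V | 4 * X.card < e X} Finset.card
    (Set.toFinite _) ⟨_, hu⟩
  have hX' : 4 * X.card < e X := hX
  refine ⟨X, ?_, fun v hv => ?_⟩
  · rw [Finset.nonempty_iff_ne_empty]
    rintro rfl
    simp [e] at hX'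
  · have h1 : 2 < ((X.erase v).filter (fun b => H.Adj v b)).card := by
      by_contra h1
      have h2 : e X = e (X.erase v) + 2 * ((X.erase v).filter (fun b => H.Adj v b)).card := by
        have h3 : v ∉ X.erase v := Finset.notMem_erase v X
        have h4 : ∑ a ∈ X.erase v, (if H.Adj a v then 1 else 0) =
            ∑ a ∈ X.erase v, (if H.Adj v a then 1 else 0) :=
          Finset.sum_congr rfl (fun a _ => by simp [H.adj_comm])
        conv_lhs => rw [← Finset.insert_erase hv]
        simp only [e, Finset.sum_insert h3, Finset.sum_add_distrib, H.irrefl, if_false,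
          Finset.card_filter, h4]
        omega
      have h5 := Finset.card_erase_add_one hv
      have h6 := hmin (X.erase v) (show 4 * (X.erase v).card < e (X.erase v) by omega)
      omega
    obtain ⟨a, b, c, ha, hb, hc, x, y, z⟩ := Finset.two_lt_card_iff.1 h1
    rw [Finset.mem_filter] at ha hb hc
    exact ⟨a, Finset.mem_of_mem_erase ha.1, b, Finset.mem_of_mem_erase hb.1, c,
      Finset.mem_of_mem_erase hc.1, ha.2, hb.2, hc.2, x, y, z⟩

lemma big [Nonempty V] {g k δ : ℕ} (h0 : 2 * (5 * (2 * k + 1) + 1) ^ (g + 1) ≤ δ)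
    (h1 : ∀ v, δ ≤ (NB G v).card) (h2 : ∀ v, (NB G v).card ≤ k * δ) :
    ∃ H : SimpleGraph V, H ≤ G ∧ (g : ℕ∞) ≤ H.egirth ∧ 4 * Fintype.card V < ∑ v, (NB H v).card := by
  classical
  obtain ⟨H, a1, a2, a3, a4⟩ := exists_sparse G g (5 * (2 * k + 1))
  refine ⟨H, a1, a3, ?_⟩
  obtain ⟨β, hβ⟩ : ∃ β, β = (5 * (2 * k + 1) + 1) ^ (g + 1) := ⟨_, rfl⟩
  have hβ0 : 0 < β := hβ ▸ Nat.pow_pos (by omega)
  rw [← hβ] at h0
  let A : Finset V := Finset.univ.filter (fun v => ¬ (NB H v).card < 5 * (2 * k + 1))
  let U : Finset V := Finset.univ.filter (fun v => (NB H v).card < 5 * (2 * k + 1))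
  have b1 : U.card * (δ - β) ≤ A.card * (k * δ) := by
    refine Finset.card_mul_le_card_mul G.Adj (fun v hv => ?_) (fun w _ => ?_)
    · have c1 : NB G v ⊆ A.bipartiteAbove G.Adj v ∪ BW H v (g + 1) := by
        intro w hw
        rw [mem_NB] at hw
        by_cases e : (NB H w).card < 5 * (2 * k + 1)
        · exact Finset.mem_union_right _ (a4 v w hw (Finset.mem_filter.1 hv).2 e)
        · exact Finset.mem_union_left _ ((Finset.mem_bipartiteAbove _).2
            ⟨Finset.mem_filter.2 ⟨Finset.mem_univ _, e⟩, hw⟩)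
      have c2 := (Finset.card_le_card c1).trans (Finset.card_union_le _ _)
      have c3 := card_BW a2 (g + 1) v
      have c4 := h1 v
      omega
    · refine (Finset.card_le_card (fun v hv => ?_)).trans (h2 w)
      exact mem_NB.2 ((Finset.mem_bipartiteBelow _).1 hv).2.symm
  have b2 : U.card ≤ 2 * k * A.card := by
    have c1 : U.card * δ ≤ U.card * (2 * (δ - β)) := Nat.mul_le_mul_left _ (by omega)
    have c2 : U.card * δ ≤ (2 * k * A.card) * δ := by nlinarith
    exact Nat.le_of_mul_le_mul_right c2 (by omega)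
  have b3 : U.card + A.card = Fintype.card V := by
    rw [← Finset.card_univ]
    exact Finset.card_filter_add_card_filter_not _
  have b4 : A.card * (5 * (2 * k + 1)) ≤ ∑ v, (NB H v).card := by
    refine le_trans ?_ (Finset.sum_le_sum_of_subset (Finset.subset_univ A))
    have := Finset.card_nsmul_le_sum A (fun v => (NB H v).card) (5 * (2 * k + 1))
      (fun v hv => not_lt.1 (Finset.mem_filter.1 hv).2)
    simpa using this
  have b5 : 0 < Fintype.card V := Fintype.card_pos
  nlinarith

end Pool.Agent.P.MP_bb4f54_co.Tr
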