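import Pool.Agent.P.MP_bb4f54_co.Tr.Period

set_option autoImplicit false

namespace Pool.Agent.P.MP_bb4f54_co.Tr

open SimpleGraph

variable {V : Type} {G : SimpleGraph V}

lemma concat_pieces {s : ℕ} (D : ℕ → V × Set V)
    (h1 : ∀ n, Pc G s (D n).1 (D (n + 1)).1 (D n).2) (i t : ℕ)
    (h2 : ∀ a b, i ≤ a → a < b → b ≤ i + t → Disjoint (D a).2 (D b).2) :
    ∃ L, L ≤ t * s ∧ ∀ m, m ≤ t →
      PIn G {x | x = (D (i + 1)).1 ∨ ∃ l, i < l ∧ l ≤ i + t ∧ x ∈ (D l).2}
        (D (i + 1)).1 (D (i + t + 1)).1 (L + 2 * m) := by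
  induction t with
  | zero =>
    refine ⟨0, by simp, fun m hm => ⟨Walk.nil, Walk.IsPath.nil, by simp; omega, by simp⟩⟩
  | succ t ih =>
    obtain ⟨L, hL, hp⟩ := ih (fun a b x y z => h2 a b x y (by omega))
    obtain ⟨_, _, ⟨l, c1, c2, c3⟩, _⟩ := h1 (i + t + 1)
    have key : ∀ u u', PIn G {x | x = (D (i + 1)).1 ∨ ∃ l, i < l ∧ l ≤ i + t ∧ x ∈ (D l).2}
        (D (i + 1)).1 (D (i + t + 1)).1 u →
        PIn G (insert (D (i + t + 1)).1 (D (i + t + 1)).2) (D (i + t + 1)).1 (D (i + t + 1 + 1)).1 u'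
        → PIn G {x | x = (D (i + 1)).1 ∨ ∃ l, i < l ∧ l ≤ i + (t + 1) ∧ x ∈ (D l).2}
          (D (i + 1)).1 (D (i + (t + 1) + 1)).1 (u + u') := by
      rintro _ _ ⟨p, a1, rfl, a2⟩ ⟨q, b1, rfl, b2⟩
      have a3 : ∀ x ∈ p.support,
          x = (D (i + 1)).1 ∨ ∃ l, i < l ∧ l ≤ i + (t + 1) ∧ x ∈ (D l).2 := fun x hx => by
        rcases a2 x hx with h | ⟨l, h, h', h''⟩
        · exact Or.inl h
        · exact Or.inr ⟨l, h, by omega, h''⟩
      refine ⟨p.append q, path_append a1 b1 (fun x hx hx' => ?_), by simp, fun x hx => ?_⟩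
      · rcases b2 x hx' with h | h
        · exact h
        · exfalso
          rcases a2 x hx with rfl | ⟨l, h3, h4, h5⟩
          · exact Set.disjoint_left.1 (h2 i (i + t + 1) le_rfl (by omega) (by omega)) (h1 i).2.1 h
          · exact Set.disjoint_left.1 (h2 l (i + t + 1) (by omega) (by omega) (by omega)) h5 h
      · rcases (Walk.mem_support_append_iff _ _).1 hx with hx | hx
        · exact a3 x hx
        · rcases b2 x hx with h | h
          · rw [h]
            exact a3 _ p.end_mem_support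
          · exact Or.inr ⟨i + t + 1, by omega, by omega, h⟩
    have e : (t + 1) * s = t * s + s := by ring
    refine ⟨L + l, by omega, fun m hm => ?_⟩
    by_cases e1 : m ≤ t
    · have := key _ _ (hp m e1) c2
      rwa [show L + 2 * m + l = L + l + 2 * m by omega] at this
    · have := key _ _ (hp t le_rfl) c3
      rwa [show L + 2 * t + (l + 2) = L + l + 2 * m by omega] at this

lemma close [Finite V] {s R : ℕ} (D : ℕ → V × Set V)
    (h1 : ∀ n, Pc G s (D n).1 (D (n + 1)).1 (D n).2)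
    (h2 : ∀ n m, n < m → m ≤ n + R → Disjoint (D n).2 (D m).2) :
    ∃ t L, R ≤ t ∧ L ≤ (t + 2) * s ∧ ∀ m, 1 ≤ m → m ≤ t → Cyc G (L + 2 * m) := by
  classical
  have hex : ∃ t, ∃ i, ¬ Disjoint (D i).2 (D (i + t + 1)).2 := by
    obtain ⟨a, b, hab, e⟩ := Finite.exists_ne_map_eq_of_infinite (fun n : ℕ => (D (n + 1)).1)
    rcases Nat.lt_or_gt_of_ne hab with h | h
    · refine ⟨b - a - 1, a, fun hd => ?_⟩
      rw [show a + (b - a - 1) + 1 = b by omega] at hd
      exact Set.disjoint_left.1 hd (h1 a).2.1 (e ▸ (h1 b).2.1)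
    · refine ⟨a - b - 1, b, fun hd => ?_⟩
      rw [show b + (a - b - 1) + 1 = a by omega] at hd
      exact Set.disjoint_left.1 hd (h1 b).2.1 (e ▸ (h1 a).2.1)
  obtain ⟨t, ⟨i, hi⟩, hmin⟩ : ∃ t, (∃ i, ¬ Disjoint (D i).2 (D (i + t + 1)).2) ∧
      ∀ a b, a < b → b ≤ a + t → Disjoint (D a).2 (D b).2 := by
    refine ⟨Nat.find hex, Nat.find_spec hex, fun a b x y => ?_⟩
    by_contra hd
    refine Nat.find_min hex (m := b - a - 1) (by omega) ⟨a, ?_⟩
    rwa [show a + (b - a - 1) + 1 = b by omega]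
  have hR : R ≤ t := by
    by_contra h
    exact hi (h2 i (i + t + 1) (by omega) (by omega))
  obtain ⟨L, hL, hp⟩ := concat_pieces D h1 i t (fun a b x y z => hmin a b y (by omega))
  obtain ⟨x, hx1, hx2⟩ := Set.not_disjoint_iff.1 hi
  obtain ⟨⟨w, a1, a2⟩, _⟩ := (h1 (i + t + 1)).2.2.2 x hx2
  obtain ⟨_, ⟨w', a3, a4⟩⟩ := (h1 i).2.2.2 x hx1
  have b1 := (w.append w').length_bypass_le_length
  rw [Walk.length_append] at b1
  have e : (t + 2) * s = t * s + 2 * s := by ring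
  refine ⟨t, L + (w.append w').bypass.length, hR, by omega, fun m hm hm' => ?_⟩
  obtain ⟨p, c1, c2, c3⟩ := hp m hm'
  refine ⟨_, p.append (w.append w').bypass, cycle_append c1 (w.append w').bypass_isPath
    (fun y hy hy' => ?_) (by omega), by rw [Walk.length_append]; omega⟩
  rcases c3 y hy with h | ⟨l, h3, h4, h5⟩
  · exact Or.inl h
  · rcases (Walk.mem_support_append_iff _ _).1 ((w.append w').support_bypass_subset_support hy')
      with h | h
    · rcases a2 y h with h6 | h6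
      · exact Or.inr h6
      · exact absurd h6 (Set.disjoint_left.1 (hmin l (i + t + 1) (by omega) (by omega)) h5)
    · exact absurd h5 (Set.disjoint_left.1 (hmin i l h3 h4) (a4 y h))

lemma pow_gap (q : ℕ) : ∃ C, ∀ a, 1 ≤ a → a * (a + 2) ^ q ≤ (a + C) * a ^ q := by
  induction q with
  | zero => exact ⟨0, fun a _ => by simp⟩
  | succ q ih =>
    obtain ⟨C, hC⟩ := ih
    refine ⟨3 * C + 2, fun a ha => ?_⟩
    have h1 : (a + 2) * (a + C) ≤ a * (a + (3 * C + 2)) := by nlinarith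
    calc a * (a + 2) ^ (q + 1) = (a + 2) * (a * (a + 2) ^ q) := by ring
      _ ≤ (a + 2) * ((a + C) * a ^ q) := Nat.mul_le_mul_left _ (hC a ha)
      _ = ((a + 2) * (a + C)) * a ^ q := by ring
      _ ≤ (a * (a + (3 * C + 2))) * a ^ q := Nat.mul_le_mul_right _ h1
      _ = (a + (3 * C + 2)) * a ^ (q + 1) := by ring

lemma hit_power {q : ℕ} (hq : 1 ≤ q) (s : ℕ) : ∃ R, 1 ≤ R ∧ ∀ t L, R ≤ t → L ≤ (t + 2) * s →
    ∃ m a, 1 ≤ m ∧ m ≤ t ∧ 2 ≤ a ∧ L + 2 * m = a ^ q := by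
  classical
  obtain ⟨C, hC⟩ := pow_gap q
  refine ⟨((s + 1) * C + 3) ^ q + 3, by omega, fun t L ht hL => ?_⟩
  have hex : ∃ b, L + 2 ≤ (2 * b + L % 2) ^ q :=
    ⟨L + 2, (by omega : L + 2 ≤ 2 * (L + 2) + L % 2).trans (Nat.le_self_pow (by omega) _)⟩
  obtain ⟨b, hb, hb'⟩ : ∃ b, L + 2 ≤ (2 * (b + 1) + L % 2) ^ q ∧ (2 * b + L % 2) ^ q ≤ L + 1 := by
    have h1 := Nat.find_spec hex
    have h2 : Nat.find hex ≠ 0 := fun e => by
      rw [e] at h1
      have h3 : (2 * 0 + L % 2) ^ q ≤ 1 ^ q := Nat.pow_le_pow_left (by omega) _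
      rw [one_pow] at h3
      omega
    obtain ⟨b, hb⟩ := Nat.exists_eq_succ_of_ne_zero h2
    have h3 := Nat.find_min hex (m := b) (by omega)
    rw [hb] at h1
    exact ⟨b, h1, by omega⟩
  obtain ⟨a, ha⟩ : ∃ a, a = 2 * b + L % 2 := ⟨_, rfl⟩
  rw [show 2 * (b + 1) + L % 2 = a + 2 by omega] at hb
  rw [← ha] at hb'
  have hpar : (a + 2) ^ q % 2 = L % 2 := by
    rcases Nat.mod_two_eq_zero_or_one L with h | h
    · have : Even ((a + 2) ^ q) := (Nat.even_pow' (by omega)).2 (Nat.even_iff.2 (by omega))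
      rw [Nat.even_iff.1 this, h]
    · have : Odd ((a + 2) ^ q) := Odd.pow (Nat.odd_iff.2 (by omega))
      rw [Nat.odd_iff.1 this, h]
  have hup : (a + 2) ^ q ≤ L + 2 * t := by
    by_cases e : a ≤ (s + 1) * C
    · have : (a + 2) ^ q ≤ ((s + 1) * C + 3) ^ q := Nat.pow_le_pow_left (by omega) _
      omega
    · have h1 := hC a (by omega)
      have h2 : a * ((s + 1) * (a + 2) ^ q) ≤ a * ((s + 2) * a ^ q) := by
        have h3 : (s + 1) * (a + C) ≤ a * (s + 2) := by nlinarith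
        calc a * ((s + 1) * (a + 2) ^ q) = (s + 1) * (a * (a + 2) ^ q) := by ring
          _ ≤ (s + 1) * ((a + C) * a ^ q) := Nat.mul_le_mul_left _ h1
          _ = ((s + 1) * (a + C)) * a ^ q := by ring
          _ ≤ (a * (s + 2)) * a ^ q := Nat.mul_le_mul_right _ h3
          _ = a * ((s + 2) * a ^ q) := by ring
      have h4 := Nat.le_of_mul_le_mul_left h2 (by omega)
      have h5 : (s + 2) * a ^ q ≤ (s + 2) * (L + 1) := Nat.mul_le_mul_left _ hb'
      have h6 : 3 ≤ t := by omega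
      have h7 : (s + 2) * (L + 1) ≤ (s + 1) * (L + 2 * t) := by
        nlinarith [Nat.mul_le_mul_left s h6]
      exact Nat.le_of_mul_le_mul_left (h4.trans (h5.trans h7)) (by omega)
  exact ⟨((a + 2) ^ q - L) / 2, a + 2, by omega, by omega, by omega, by omega⟩

end Pool.Agent.P.MP_bb4f54_co.Tr
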