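import Pool.Agent.P.MP_bb4f54_co.Tr.Base

set_option autoImplicit false

namespace Pool.Agent.P.MP_bb4f54_co.Tr

open SimpleGraph

variable {V : Type} {G : SimpleGraph V}

/-- The annulus around `z` with radii `ρ` and `r`. -/
def An (G : SimpleGraph V) (z : V) (ρ r : ℕ) : Set V := {v | ρ < G.dist z v ∧ G.dist z v ≤ r}

/-- The component of `v` in the annulus does not reach the outer sphere. -/
def Dead (G : SimpleGraph V) (z : V) (ρ r : ℕ) (v : V) : Prop :=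
  ∀ w, RIn G (An G z ρ r) v w → G.dist z w < r

/-- The connections among vertices of the inner spheres do not change from `r` to `r'`. -/
def Stable (G : SimpleGraph V) (ρ r r' : ℕ) : Prop :=
  ∀ z e, G.dist z e = ρ + 1 → (Dead G z ρ r' e → Dead G z ρ r e) ∧
    ∀ e', G.dist z e' = ρ + 1 → RIn G (An G z ρ r') e e' → RIn G (An G z ρ r) e e'

/-- At most `k` orbits of automorphisms. -/
def Orb (G : SimpleGraph V) (k : ℕ) : Prop :=
  ∃ S : Finset V, S.card ≤ k ∧ ∀ v, ∃ φ : G ≃g G, φ v ∈ S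

/-- Every ball of radius `ρ` contains a subgraph of minimum degree two. -/
def Near (G : SimpleGraph V) (ρ : ℕ) : Prop :=
  ∀ z, ∃ Z : Set V, Z.Nonempty ∧ (∀ v ∈ Z, G.dist z v ≤ ρ) ∧
    ∀ v ∈ Z, ∃ a ∈ Z, ∃ b ∈ Z, a ≠ b ∧ G.Adj v a ∧ G.Adj v b

lemma An_mono {z : V} {ρ r r' : ℕ} (h : r ≤ r') : An G z ρ r ⊆ An G z ρ r' :=
  fun _ hv => ⟨hv.1, hv.2.trans h⟩

lemma Dead.mono (hc : G.Connected) {z e : V} {ρ r r' : ℕ} (h : Dead G z ρ r e) (hr : r ≤ r') :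
    Dead G z ρ r' e := by
  have key : ∀ w, RIn G (An G z ρ r') e w → RIn G (An G z ρ r) e w := by
    intro w hw
    induction hw with
    | refl => exact RIn.rfl
    | @tail u w _ h1 ih =>
      have h2 := h u ih
      have h3 := dist_adj_le hc z h1.1
      exact ih.tail h1.1 ⟨h1.2.1, by omega⟩
  intro w hw
  exact (h w (key w hw)).trans_le hr

lemma rin_An_iso (hc : G.Connected) (φ : G ≃g G) {z a b : V} {ρ r : ℕ}
    (h : RIn G (An G z ρ r) a b) : RIn G (An G (φ z) ρ r) (φ a) (φ b) := by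
  refine h.map φ (fun v hv => ?_)
  have := dist_iso hc φ z v
  exact ⟨this ▸ hv.1, this ▸ hv.2⟩

lemma rin_An_iso' (hc : G.Connected) (φ : G ≃g G) {z a b : V} {ρ r : ℕ}
    (h : RIn G (An G (φ z) ρ r) (φ a) (φ b)) : RIn G (An G z ρ r) a b := by
  have := rin_An_iso hc φ.symm h
  simpa using this

lemma dead_iso' (hc : G.Connected) (φ : G ≃g G) {z e : V} {ρ r : ℕ}
    (h : Dead G (φ z) ρ r (φ e)) : Dead G z ρ r e := by
  intro w hw
  have := h _ (rin_An_iso hc φ hw)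
  rwa [dist_iso hc] at this

lemma dead_iso (hc : G.Connected) (φ : G ≃g G) {z e : V} {ρ r : ℕ}
    (h : Dead G z ρ r e) : Dead G (φ z) ρ r (φ e) := by
  refine dead_iso' hc φ.symm ?_
  simpa using h

lemma exists_stable (f : ℕ → ℕ) (K : ℕ) (hK : ∀ j, f j ≤ K) (hm : ∀ j, f j ≤ f (j + 1)) :
    ∃ j ≤ K, f (j + 1) = f j := by
  by_contra h
  push Not at h
  have h1 : ∀ j ≤ K + 1, j ≤ f j := by
    intro j
    induction j with
    | zero => simp
    | succ j ih =>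
      intro hj
      have := ih (by omega)
      have := h j (by omega)
      have := hm j
      omega
  have := h1 (K + 1) le_rfl
  have := hK (K + 1)
  omega

lemma gap [Fintype V] (hc : G.Connected) {d k : ℕ} (hd : ∀ v, (NB G v).card ≤ d) (hO : Orb G k)
    (ρ : ℕ) (rs : ℕ → ℕ) (hrs : ∀ j, rs j ≤ rs (j + 1)) :
    ∃ j ≤ k * ((d + 1) ^ (ρ + 1) * (d + 1) ^ (ρ + 1)) + k * (d + 1) ^ (ρ + 1),
      Stable G ρ (rs j) (rs (j + 1)) := by
  classical
  obtain ⟨S, hS, hφ⟩ := hO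
  let C1 : ℕ → Finset (V × V × V) := fun r => Finset.univ.filter (fun p => p.1 ∈ S ∧
    G.dist p.1 p.2.1 = ρ + 1 ∧ G.dist p.1 p.2.2 = ρ + 1 ∧ RIn G (An G p.1 ρ r) p.2.1 p.2.2)
  let C2 : ℕ → Finset (V × V) := fun r => Finset.univ.filter (fun p => p.1 ∈ S ∧
    G.dist p.1 p.2 = ρ + 1 ∧ Dead G p.1 ρ r p.2)
  have m1 : ∀ r p, p ∈ C1 r ↔ p.1 ∈ S ∧ G.dist p.1 p.2.1 = ρ + 1 ∧ G.dist p.1 p.2.2 = ρ + 1 ∧
      RIn G (An G p.1 ρ r) p.2.1 p.2.2 := fun r p => by simp [C1]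
  have m2 : ∀ r p, p ∈ C2 r ↔ p.1 ∈ S ∧ G.dist p.1 p.2 = ρ + 1 ∧ Dead G p.1 ρ r p.2 :=
    fun r p => by simp [C2]
  have s1 : ∀ j, C1 (rs j) ⊆ C1 (rs (j + 1)) := fun j p hp => by
    obtain ⟨a, b, c, e⟩ := (m1 _ _).1 hp
    exact (m1 _ _).2 ⟨a, b, c, e.mono (An_mono (hrs j))⟩
  have s2 : ∀ j, C2 (rs j) ⊆ C2 (rs (j + 1)) := fun j p hp => by
    obtain ⟨a, b, c⟩ := (m2 _ _).1 hp
    exact (m2 _ _).2 ⟨a, b, c.mono hc (hrs j)⟩
  have b1 : ∀ r, (C1 r).card ≤ k * ((d + 1) ^ (ρ + 1) * (d + 1) ^ (ρ + 1)) := fun r => by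
    have h1 : C1 r ⊆ S.biUnion (fun z => {z} ×ˢ (BW G z (ρ + 1) ×ˢ BW G z (ρ + 1))) := by
      intro p hp
      obtain ⟨a, b, c, _⟩ := (m1 _ _).1 hp
      exact Finset.mem_biUnion.2 ⟨p.1, a, Finset.mem_product.2 ⟨Finset.mem_singleton_self _,
        Finset.mem_product.2 ⟨mem_BW_of_dist hc b.le, mem_BW_of_dist hc c.le⟩⟩⟩
    refine (Finset.card_le_card h1).trans ?_
    refine (Finset.card_biUnion_le_card_mul _ _ ((d + 1) ^ (ρ + 1) * (d + 1) ^ (ρ + 1))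
      (fun z _ => ?_)).trans (Nat.mul_le_mul_right _ hS)
    rw [Finset.card_product, Finset.card_product, Finset.card_singleton, one_mul]
    exact Nat.mul_le_mul (card_BW hd _ _) (card_BW hd _ _)
  have b2 : ∀ r, (C2 r).card ≤ k * (d + 1) ^ (ρ + 1) := fun r => by
    have h1 : C2 r ⊆ S.biUnion (fun z => {z} ×ˢ BW G z (ρ + 1)) := by
      intro p hp
      obtain ⟨a, b, _⟩ := (m2 _ _).1 hp
      exact Finset.mem_biUnion.2 ⟨p.1, a, Finset.mem_product.2 ⟨Finset.mem_singleton_self _,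
        mem_BW_of_dist hc b.le⟩⟩
    refine (Finset.card_le_card h1).trans ?_
    refine (Finset.card_biUnion_le_card_mul _ _ ((d + 1) ^ (ρ + 1))
      (fun z _ => ?_)).trans (Nat.mul_le_mul_right _ hS)
    rw [Finset.card_product, Finset.card_singleton, one_mul]
    exact card_BW hd _ _
  obtain ⟨j, hj, hj'⟩ := exists_stable (fun j => (C1 (rs j)).card + (C2 (rs j)).card) _
    (fun j => Nat.add_le_add (b1 _) (b2 _))
    (fun j => Nat.add_le_add (Finset.card_le_card (s1 j)) (Finset.card_le_card (s2 j)))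
  have c1 := Finset.card_le_card (s1 j)
  have c2 := Finset.card_le_card (s2 j)
  have e1 : C1 (rs j) = C1 (rs (j + 1)) := Finset.eq_of_subset_of_card_le (s1 j) (by omega)
  have e2 : C2 (rs j) = C2 (rs (j + 1)) := Finset.eq_of_subset_of_card_le (s2 j) (by omega)
  refine ⟨j, hj, fun z e he => ?_⟩
  obtain ⟨φ, hz⟩ := hφ z
  have he' : G.dist (φ z) (φ e) = ρ + 1 := by rw [dist_iso hc, he]
  refine ⟨fun h => ?_, fun e' h1 h => ?_⟩
  · have h2 : (φ z, φ e) ∈ C2 (rs (j + 1)) := (m2 _ _).2 ⟨hz, he', dead_iso hc φ h⟩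
    rw [← e2] at h2
    exact dead_iso' hc φ ((m2 _ _).1 h2).2.2
  · have h2 : (φ z, φ e, φ e') ∈ C1 (rs (j + 1)) :=
      (m1 _ _).2 ⟨hz, he', by rw [← h1]; exact dist_iso hc φ z e', rin_An_iso hc φ h⟩
    rw [← e1] at h2
    exact rin_An_iso' hc φ ((m1 _ _).1 h2).2.2.2

lemma near_orbit (hc : G.Connected) {k : ℕ} (hO : Orb G k) (a z : V) :
    ∃ ψ : G ≃g G, G.dist z (ψ a) ≤ k := by
  classical
  obtain ⟨S, hS, hφ⟩ := hO
  have hex : ∀ v, ∃ n, ∃ ψ : G ≃g G, G.dist (ψ a) v = n := fun v => ⟨_, Iso.refl, rfl⟩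
  let f : V → ℕ := fun v => Nat.find (hex v)
  have f1 : ∀ v, ∃ ψ : G ≃g G, G.dist (ψ a) v = f v := fun v => Nat.find_spec (hex v)
  have f2 : ∀ v (ψ : G ≃g G), f v ≤ G.dist (ψ a) v := fun v ψ => Nat.find_min' (hex v) ⟨ψ, rfl⟩
  have f3 : ∀ v (φ : G ≃g G), f (φ v) ≤ f v := fun v φ => by
    obtain ⟨ψ, h⟩ := f1 v
    have h1 := f2 (φ v) (ψ.trans φ)
    have h2 : G.dist ((ψ.trans φ) a) (φ v) = G.dist (ψ a) v := dist_iso hc φ (ψ a) v
    omega
  have f4 : ∀ v (φ : G ≃g G), f (φ v) = f v := fun v φ => by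
    refine le_antisymm (f3 v φ) ?_
    have := f3 (φ v) φ.symm
    simpa using this
  have f5 : ∀ n v, f v = n → ∀ m ≤ n, ∃ u, f u = m := by
    intro n
    induction n with
    | zero => exact fun v hv m hm => ⟨v, by omega⟩
    | succ n ih =>
      intro v hv m hm
      by_cases e : m = n + 1
      · exact ⟨v, by omega⟩
      · obtain ⟨ψ, h⟩ := f1 v
        obtain ⟨u, hu, hu'⟩ := exists_parent hc (h.trans hv)
        have h1 := f2 u ψ
        obtain ⟨ψ', h'⟩ := f1 u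
        have h2 := f2 v ψ'
        have h3 := dist_adj_le hc (ψ' a) hu.symm
        exact ih u (by omega) m (by omega)
  have h1 : Finset.range (f z + 1) ⊆ S.image f := by
    intro m hm
    obtain ⟨u, hu⟩ := f5 _ z rfl m (by simpa [Nat.lt_succ_iff] using hm)
    obtain ⟨φ, h⟩ := hφ u
    exact Finset.mem_image.2 ⟨φ u, h, by rw [f4, hu]⟩
  have h2 := (Finset.card_le_card h1).trans Finset.card_image_le
  rw [Finset.card_range] at h2
  obtain ⟨ψ, h⟩ := f1 z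
  exact ⟨ψ, by rw [dist_comm]; omega⟩

lemma near_of_cycle (hc : G.Connected) {k g : ℕ} (hO : Orb G k) {a : V} {c : G.Walk a a}
    (hcyc : c.IsCycle) (hl : c.length ≤ g) : Near G (k + g) := by
  classical
  intro z
  obtain ⟨ψ, hψ⟩ := near_orbit hc hO a z
  refine ⟨ψ '' {v | v ∈ c.support}, ⟨ψ a, a, c.start_mem_support, rfl⟩, ?_, ?_⟩
  · rintro _ ⟨v, hv, rfl⟩
    have h1 := dist_tri hc z (ψ a) (ψ v)
    have h2 := dist_iso hc ψ a v
    have h3 := dist_le (c.takeUntil v hv)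
    have h4 := c.length_takeUntil_le_length hv
    omega
  · rintro _ ⟨v, hv, rfl⟩
    obtain ⟨x, y, hxy, h⟩ := Set.ncard_eq_two.1 (hcyc.ncard_neighborSet_toSubgraph_eq_two hv)
    have hx : x ∈ c.toSubgraph.neighborSet v := by rw [h]; simp
    have hy : y ∈ c.toSubgraph.neighborSet v := by rw [h]; simp
    have hx' : c.toSubgraph.Adj v x := hx
    have hy' : c.toSubgraph.Adj v y := hy
    exact ⟨ψ x, ⟨x, c.mem_verts_toSubgraph.1 (c.toSubgraph.edge_vert hx'.symm), rfl⟩,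
      ψ y, ⟨y, c.mem_verts_toSubgraph.1 (c.toSubgraph.edge_vert hy'.symm), rfl⟩,
      fun e => hxy (ψ.injective e), ψ.map_adj_iff.2 (c.toSubgraph.adj_sub hx'),
      ψ.map_adj_iff.2 (c.toSubgraph.adj_sub hy')⟩

end Pool.Agent.P.MP_bb4f54_co.Tr
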