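import Pool.Agent.P.MP_bb4f54_co.Tr.Close
import Pool.Agent.P.MP_bb4f54_co.Tr.Big
import Pool.Agent.P.MP_bb4f54_co.Main

set_option autoImplicit false

namespace Pool.Agent.P.MP_bb4f54_co.Tr

open SimpleGraph

lemma large_girth {q : ℕ} (hq : 1 ≤ q) : ∃ g : ℕ, ∀ (V : Type) [Fintype V] (G : SimpleGraph V)
    (X : Finset V), X.Nonempty → (∀ v ∈ X, ∃ a ∈ X, ∃ b ∈ X, ∃ c ∈ X,
      G.Adj v a ∧ G.Adj v b ∧ G.Adj v c ∧ a ≠ b ∧ a ≠ c ∧ b ≠ c) → (g : ℕ∞) ≤ G.egirth →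
      ∃ a, 2 ≤ a ∧ Cyc G (a ^ q) := by
  obtain ⟨g, hg⟩ := Pool.Agent.P.MP_bb4f54_co.main
  refine ⟨g + 2 ^ q, fun V _ G X hX h3 hG => ?_⟩
  classical
  let f : G.induce (X : Set V) ↪g G := Embedding.induce _
  have h1 : ((g + 2 ^ q : ℕ) : ℕ∞) ≤ (G.induce (X : Set V)).egirth :=
    hG.trans f.isContained.egirth_le
  have : Nonempty (X : Set V) := by
    obtain ⟨x, hx⟩ := hX
    exact ⟨⟨x, hx⟩⟩
  have h2 : 3 ≤ (G.induce (X : Set V)).minDegree := by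
    refine le_minDegree_of_forall_le_degree _ _ (fun v => ?_)
    obtain ⟨a, ha, b, hb, c, hc, x1, x2, x3, y1, y2, y3⟩ := h3 v.1 v.2
    rw [← card_neighborFinset_eq_degree]
    refine Finset.two_lt_card_iff.2 ⟨⟨a, ha⟩, ⟨b, hb⟩, ⟨c, hc⟩, ?_, ?_, ?_, fun e => y1 ?_,
      fun e => y2 ?_, fun e => y3 ?_⟩
    · rw [mem_neighborFinset]
      exact x1
    · rw [mem_neighborFinset]
      exact x2
    · rw [mem_neighborFinset]
      exact x3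
    · exact congrArg Subtype.val e
    · exact congrArg Subtype.val e
    · exact congrArg Subtype.val e
  obtain ⟨k, hk, hc⟩ := hg _ (G.induce (X : Set V)) h2
    (le_trans (by exact_mod_cast Nat.le_add_right _ _) h1)
  have h4 : q ≤ k := by
    obtain ⟨v, c, c1, c2⟩ := hc (2 ^ k) ((Nat.even_pow' (by omega)).2 (by norm_num)) le_rfl
      (Nat.pow_le_pow_left (by norm_num) _)
    have h5 := le_egirth.1 h1 v c c1
    rw [c2] at h5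
    have h6 : g + 2 ^ q ≤ 2 ^ k := by exact_mod_cast h5
    exact (Nat.pow_le_pow_iff_right (by norm_num : 1 < 2)).1 (by omega)
  have h5 := Nat.div_add_mod k q
  have h6 := Nat.mod_lt k (by omega : q > 0)
  have h7 : (k / q + 1) * q = q * (k / q) + q := by ring
  obtain ⟨v, c, c1, c2⟩ := hc (2 ^ ((k / q + 1) * q)) ((Nat.even_pow' (by omega)).2 (by norm_num))
    (Nat.pow_le_pow_right (by norm_num) (by omega)) (by
      rw [show (4 : ℕ) = 2 ^ 2 by norm_num, ← pow_mul]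
      exact Nat.pow_le_pow_right (by norm_num) (by omega))
  refine ⟨2 ^ (k / q + 1), ?_, _, c.map f.toHom, c1.map f.injective, ?_⟩
  · exact Nat.le_self_pow (Nat.succ_ne_zero _) 2
  · rw [Walk.length_map, c2, pow_mul]

lemma local_case {q : ℕ} (hq : 1 ≤ q) (k d ρ r : ℕ) : ∃ T : ℕ, ∀ (V : Type) [Fintype V]
    (G : SimpleGraph V), G.Connected → (∀ v, (G.induce ({v}ᶜ : Set V)).Connected) →
    (∀ v, ∃ a b c, G.Adj v a ∧ G.Adj v b ∧ G.Adj v c ∧ a ≠ b ∧ a ≠ c ∧ b ≠ c) →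
    (∀ v, (NB G v).card ≤ d) → Orb G k → Near G ρ → ρ + 1 ≤ r → ∀ r', 4 * T ≤ r' →
    Stable G ρ r r' → (∃ o v, T ≤ G.dist o v) → ∃ a, 2 ≤ a ∧ Cyc G (a ^ q) := by
  obtain ⟨s, hs⟩ : ∃ s, s = (d + 1) ^ (3 * r + 1) := ⟨_, rfl⟩
  obtain ⟨R, hR, hR'⟩ := hit_power hq (((s + 1) * (s + 1) + 1) * s)
  obtain ⟨M, hM⟩ : ∃ M, (k * (d + 1) ^ ((R + 1) * (((s + 1) * (s + 1) + 1) * s)) *
    2 ^ (k * (d + 1) ^ ((R + 1) * (((s + 1) * (s + 1) + 1) * s)))) ^ (R + 1) + R + 1 ≤ M :=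
    ⟨_, le_rfl⟩
  refine ⟨M * (((s + 1) * (s + 1) + 1) * (2 * r + 2)), ?_⟩
  rintro V _ G hc hn h3 hd hO hZ hρ r' hr' st ⟨o, v, hv⟩
  obtain ⟨D, d1, d2⟩ := chain (M := M) (fun h a b => super (s := s) (by omega : 0 < 2 * r + 2)
    (fun h a b => hs ▸ step hc hn h3 hd hZ hρ hr' st a b) a b)
    (up_origin hc _ v rfl (.top hv)) le_rfl
  obtain ⟨D', e1, e2⟩ := period hc hd hO hR D d1 d2 hM
  obtain ⟨t, L, a1, a2, a3⟩ := close D' e1 e2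
  obtain ⟨m, a, b1, b2, b3, b4⟩ := hR' t L a1 a2
  exact ⟨a, b3, b4 ▸ a3 m b1 b2⟩

lemma bounded_case {q : ℕ} (hq : 1 ≤ q) (k d ρ : ℕ) : ∃ N : ℕ, ∀ (V : Type) [Fintype V]
    (G : SimpleGraph V), N ≤ Fintype.card V → G.Connected →
    (∀ v, (G.induce ({v}ᶜ : Set V)).Connected) →
    (∀ v, ∃ a b c, G.Adj v a ∧ G.Adj v b ∧ G.Adj v c ∧ a ≠ b ∧ a ≠ c ∧ b ≠ c) →
    (∀ v, (NB G v).card ≤ d) → Orb G k → Near G ρ → ∃ a, 2 ≤ a ∧ Cyc G (a ^ q) := by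
  choose T hT using local_case hq k d ρ
  let rs : ℕ → ℕ := fun j => (fun r => 4 * T r + r)^[j] (ρ + 1)
  have e1 : ∀ j, rs (j + 1) = 4 * T (rs j) + rs j := fun j => Function.iterate_succ_apply' _ _ _
  have e2 : Monotone rs := monotone_nat_of_le_succ (fun j => by rw [e1]; omega)
  refine ⟨(d + 1) ^ rs (k * ((d + 1) ^ (ρ + 1) * (d + 1) ^ (ρ + 1)) + k * (d + 1) ^ (ρ + 1) + 1)
    + 1, fun V _ G hN hc hn h3 hd hO hZ => ?_⟩
  obtain ⟨j, hj, st⟩ := gap hc hd hO ρ rs (fun j => e2 (Nat.le_succ j))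
  obtain ⟨o⟩ := hc.nonempty
  obtain ⟨v, hv⟩ := exists_far hc hd hN o
  have a1 := e2 (Nat.succ_le_succ hj)
  have a2 := e1 j
  have a3 : rs 0 ≤ rs j := e2 (Nat.zero_le j)
  simp only [Nat.succ_eq_add_one] at a1
  exact hT (rs j) V G hc hn h3 hd hO hZ a3 _ (by omega) st ⟨o, v, by omega⟩

theorem main (q k : ℕ) (hq : 1 ≤ q) : ∃ N : ℕ, ∀ (V : Type) [Fintype V] [DecidableEq V]
    (G : SimpleGraph V) [DecidableRel G.Adj], N ≤ Fintype.card V → G.Connected →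
    (∀ v, (G.induce ({v}ᶜ : Set V)).Connected) → 3 ≤ G.minDegree →
    G.maxDegree ≤ k * G.minDegree →
    (∃ S : Finset V, S.card ≤ k ∧ ∀ v, ∃ φ : G ≃g G, φ v ∈ S) →
    ∃ a : ℕ, 2 ≤ a ∧ ∃ (v : V) (c : G.Walk v v), c.IsCycle ∧ c.length = a ^ q := by
  obtain ⟨g, hg⟩ := large_girth hq
  obtain ⟨N, hN⟩ := bounded_case hq k (k * (2 * (5 * (2 * k + 1) + 1) ^ (g + 1))) (k + g)
  refine ⟨N, fun V _ _ G _ hV hc hn h3 hk hO => ?_⟩
  have := hc.nonempty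
  have d1 : ∀ v, G.minDegree ≤ (NB G v).card := fun v => by
    rw [card_NB]
    exact G.minDegree_le_degree v
  have d2 : ∀ v, (NB G v).card ≤ k * G.minDegree := fun v => by
    rw [card_NB]
    exact (G.degree_le_maxDegree v).trans hk
  have d3 : ∀ v, ∃ a b c, G.Adj v a ∧ G.Adj v b ∧ G.Adj v c ∧ a ≠ b ∧ a ≠ c ∧ b ≠ c := fun v => by
    obtain ⟨a, b, c, ha, hb, hc, x⟩ := Finset.two_lt_card_iff.1 (h3.trans (d1 v))
    exact ⟨a, b, c, mem_NB.1 ha, mem_NB.1 hb, mem_NB.1 hc, x⟩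
  by_cases e1 : 2 * (5 * (2 * k + 1) + 1) ^ (g + 1) ≤ G.minDegree
  · obtain ⟨H, a1, a2, a3⟩ := big (g := g) e1 d1 d2
    obtain ⟨X, b1, b2⟩ := dense_core H a3
    obtain ⟨a, c1, v, c, c2, c3⟩ := hg V H X b1 b2 a2
    exact ⟨a, c1, v, c.mapLe a1, c2.mapLe a1, by rw [Walk.length_mapLe, c3]⟩
  by_cases e2 : (g : ℕ∞) ≤ G.egirth
  · refine hg V G Finset.univ Finset.univ_nonempty (fun v _ => ?_) e2
    obtain ⟨a, b, c, h⟩ := d3 v
    exact ⟨a, Finset.mem_univ _, b, Finset.mem_univ _, c, Finset.mem_univ _, h⟩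
  · rw [le_egirth] at e2
    push Not at e2
    obtain ⟨a, c, c1, c2⟩ := e2
    have c3 : c.length < g := by exact_mod_cast c2
    exact hN V G hV hc hn d3 (fun v => (d2 v).trans (Nat.mul_le_mul_left _ (by omega))) hO
      (near_of_cycle hc hO c1 c3.le)

end Pool.Agent.P.MP_bb4f54_co.Tr
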