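import Pool.Agent.P.MP_bb4f54_co.Tr.Super

set_option autoImplicit false

namespace Pool.Agent.P.MP_bb4f54_co.Tr

open SimpleGraph

variable {V : Type} {G : SimpleGraph V}

lemma walk_map (φ : G ≃g G) {a b : V} (w : G.Walk a b) : ∃ w' : G.Walk (φ a) (φ b),
    w'.length = w.length ∧ (w.IsPath → w'.IsPath) ∧ ∀ y ∈ w'.support, ∃ x ∈ w.support, y = φ x := by
  refine ⟨w.map φ.toHom, Walk.length_map _ _, fun h => h.map φ.injective, fun y hy => ?_⟩
  rw [Walk.support_map, List.mem_map] at hy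
  obtain ⟨x, hx, e⟩ := hy
  exact ⟨x, hx, e.symm⟩

lemma PIn.map (φ : G ≃g G) {a b : V} {E : Set V} {l : ℕ} (h : PIn G (insert a E) a b l) :
    PIn G (insert (φ a) (φ '' E)) (φ a) (φ b) l := by
  obtain ⟨p, hp, lp, sp⟩ := h
  obtain ⟨w, a1, a2, a3⟩ := walk_map φ p
  refine ⟨w, a2 hp, a1.trans lp, fun y hy => ?_⟩
  obtain ⟨x, hx, rfl⟩ := a3 y hy
  rcases sp x hx with rfl | h
  · exact Or.inl rfl
  · exact Or.inr ⟨x, h, rfl⟩

lemma Pc.map (φ : G ≃g G) {s : ℕ} {a b : V} {E : Set V} (h : Pc G s a b E) :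
    Pc G s (φ a) (φ b) (φ '' E) := by
  obtain ⟨h1, h2, ⟨l, h3, h4, h5⟩, h6⟩ := h
  refine ⟨?_, ⟨b, h2, rfl⟩, ⟨l, h3, h4.map φ, h5.map φ⟩, ?_⟩
  · rintro ⟨x, hx, e⟩
    exact h1 (φ.injective e ▸ hx)
  · rintro _ ⟨x, hx, rfl⟩
    obtain ⟨⟨w, a1, a2⟩, ⟨w', a3, a4⟩⟩ := h6 x hx
    obtain ⟨u, b1, _, b2⟩ := walk_map φ w
    obtain ⟨u', b3, _, b4⟩ := walk_map φ w'
    refine ⟨⟨u, by omega, fun y hy => ?_⟩, ⟨u', by omega, fun y hy => ?_⟩⟩
    · obtain ⟨x', hx', rfl⟩ := b2 y hy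
      rcases a2 x' hx' with rfl | h
      · exact Or.inl rfl
      · exact Or.inr ⟨x', h, rfl⟩
    · obtain ⟨x', hx', rfl⟩ := b4 y hy
      exact ⟨x', a4 x' hx', rfl⟩

lemma periodic {α : Type} (act : α → α) (D : ℕ → α) {i p R : ℕ} (hp : 0 < p)
    (h : ∀ l, l ≤ R → act (D (i + l)) = D (i + p + l)) :
    ∃ D' : ℕ → α, ∀ Q : α → α → Prop, (∀ a b, Q a b → Q (act a) (act b)) → ∀ l, l ≤ R →
      (∀ n, n < p → Q (D (i + n)) (D (i + n + l))) → ∀ n, Q (D' n) (D' (n + l)) := by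
  obtain ⟨D', e1, e2⟩ : ∃ D' : ℕ → α, (∀ n, D' (n + p) = act (D' n)) ∧
      ∀ n, n < p → D' n = D (i + n) := by
    refine ⟨fun n => act^[n / p] (D (i + n % p)), fun n => ?_, fun n hn => ?_⟩
    · simp only
      rw [Nat.add_div_right _ hp, Nat.add_mod_right, Function.iterate_succ_apply']
    · simp only
      rw [Nat.div_eq_of_lt hn, Nat.mod_eq_of_lt hn]
      rfl
  have e3 : ∀ m, m ≤ p + R → D' m = D (i + m) := by
    intro m
    induction m using Nat.strong_induction_on with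
    | _ m ih =>
      intro hm
      by_cases e : m < p
      · exact e2 m e
      · obtain ⟨l, rfl⟩ : ∃ l, m = l + p := ⟨m - p, by omega⟩
        rw [e1, ih l (by omega) (by omega), h l (by omega)]
        congr 1
        omega
  refine ⟨D', fun Q hQ l hl h0 n => ?_⟩
  induction n using Nat.strong_induction_on with
  | _ n ih =>
    by_cases e : n < p
    · rw [e2 n e, e3 (n + l) (by omega), ← add_assoc]
      exact h0 n e
    · obtain ⟨m, rfl⟩ : ∃ m, n = m + p := ⟨n - p, by omega⟩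
      rw [show m + p + l = m + l + p by omega, e1, e1]
      exact hQ _ _ (ih m (by omega))

lemma period [Fintype V] (hc : G.Connected) {d k s R M : ℕ} (hd : ∀ v, (NB G v).card ≤ d)
    (hO : Orb G k) (hR : 1 ≤ R) (D : ℕ → V × Set V)
    (h1 : ∀ n, n < M → Pc G s (D n).1 (D (n + 1)).1 (D n).2)
    (h2 : ∀ n m, n < m → m < M → Disjoint (D n).2 (D m).2)
    (hM : (k * (d + 1) ^ ((R + 1) * s) * 2 ^ (k * (d + 1) ^ ((R + 1) * s))) ^ (R + 1) + R + 1
      ≤ M) :
    ∃ D' : ℕ → V × Set V, (∀ n, Pc G s (D' n).1 (D' (n + 1)).1 (D' n).2) ∧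
      ∀ n m, n < m → m ≤ n + R → Disjoint (D' n).2 (D' m).2 := by
  classical
  obtain ⟨S, hS, hφ⟩ := hO
  choose φ hφ using hφ
  have l0 : ∀ n, n < M → ∀ x ∈ (D n).2, G.dist (D n).1 x ≤ s := fun n hn x hx => by
    obtain ⟨⟨w, a, _⟩, _⟩ := (h1 n hn).2.2.2 x hx
    exact (dist_le w).trans a
  have l1 : ∀ i l, i + l ≤ M → G.dist (D i).1 (D (i + l)).1 ≤ l * s := by
    intro i l
    induction l with
    | zero => simp
    | succ l ih =>
      intro hl
      have a1 := ih (by omega)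
      have a2 := l0 (i + l) (by omega) _ (h1 (i + l) (by omega)).2.1
      have a3 := dist_tri hc (D i).1 (D (i + l)).1 (D (i + l + 1)).1
      have a4 : (l + 1) * s = l * s + s := by ring
      have e : i + (l + 1) = i + l + 1 := rfl
      rw [e]
      omega
  let W : Finset V := S.biUnion (fun z => BW G z ((R + 1) * s))
  have hW : W.card ≤ k * (d + 1) ^ ((R + 1) * s) :=
    (Finset.card_biUnion_le_card_mul _ _ _ (fun z _ => card_BW hd _ z)).trans
      (Nat.mul_le_mul_right _ hS)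
  have mW : ∀ i x, G.dist (D i).1 x ≤ (R + 1) * s → φ (D i).1 x ∈ W := fun i x hx =>
    Finset.mem_biUnion.2 ⟨_, hφ (D i).1, mem_BW_of_dist hc (by rw [dist_iso hc]; exact hx)⟩
  have mE : ∀ i l, l ≤ R → i + l < M → ∀ y ∈ φ (D i).1 '' (D (i + l)).2, y ∈ W := by
    rintro i l hl hi _ ⟨x, hx, rfl⟩
    have a1 := l1 i l hi.le
    have a2 := l0 _ hi x hx
    have a3 := dist_tri hc (D i).1 (D (i + l)).1 x
    have a4 : (l + 1) * s ≤ (R + 1) * s := Nat.mul_le_mul_right _ (by omega)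
    have a5 : (l + 1) * s = l * s + s := by ring
    exact mW i x (by omega)
  let ty : ℕ → Fin (R + 1) → V × Finset V := fun i l =>
    (φ (D i).1 (D (i + l)).1, W.filter (fun y => y ∈ φ (D i).1 '' (D (i + l)).2))
  obtain ⟨Ty, hTy⟩ : ∃ Ty, Ty =
    (k * (d + 1) ^ ((R + 1) * s) * 2 ^ (k * (d + 1) ^ ((R + 1) * s))) ^ (R + 1) := ⟨_, rfl⟩
  rw [← hTy] at hM
  have hcard : (Fintype.piFinset (fun _ : Fin (R + 1) => W ×ˢ W.powerset)).card <
      (Finset.range (Ty + 1)).card := by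
    rw [Finset.card_range, Fintype.card_piFinset, Finset.prod_const, Finset.card_univ,
      Fintype.card_fin, Finset.card_product, Finset.card_powerset, hTy]
    exact Nat.lt_succ_of_le (Nat.pow_le_pow_left
      (Nat.mul_le_mul hW (Nat.pow_le_pow_right (by norm_num) hW)) _)
  have hmaps : Set.MapsTo ty (Finset.range (Ty + 1))
      (Fintype.piFinset (fun _ : Fin (R + 1) => W ×ˢ W.powerset)) := by
    intro i hi
    rw [Finset.mem_coe, Finset.mem_range] at hi
    rw [Finset.mem_coe, Fintype.mem_piFinset]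
    intro l
    have hl := l.2
    refine Finset.mem_product.2 ⟨mW i _ ?_, Finset.mem_powerset.2 (Finset.filter_subset _ _)⟩
    exact (l1 i l (by omega)).trans (Nat.mul_le_mul_right _ (by omega))
  obtain ⟨i, j, hij, hj, e⟩ : ∃ i j, i < j ∧ j ≤ Ty ∧ ty i = ty j := by
    obtain ⟨x, hx, y, hy, hxy, e⟩ := Finset.exists_ne_map_eq_of_card_lt_of_maps_to hcard hmaps
    rw [Finset.mem_range] at hx hy
    rcases Nat.lt_or_gt_of_ne hxy with h | h
    · exact ⟨x, y, h, by omega, e⟩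
    · exact ⟨y, x, h, by omega, e.symm⟩
  obtain ⟨p, rfl⟩ : ∃ p, j = i + p := ⟨j - i, by omega⟩
  let g : G ≃g G := (φ (D i).1).trans (φ (D (i + p)).1).symm
  have hg : ∀ x y, φ (D i).1 x = φ (D (i + p)).1 y → g x = y := fun x y h => by
    show (φ (D (i + p)).1).symm (φ (D i).1 x) = y
    rw [h]
    simp
  have hact : ∀ l, l ≤ R → (fun a : V × Set V => ((g a.1, g '' a.2) : V × Set V)) (D (i + l)) =
      D (i + p + l) := by
    intro l hl
    have e1 := congrFun e ⟨l, by omega⟩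
    simp only [ty, Prod.mk.injEq] at e1
    obtain ⟨e2, e3⟩ := e1
    have e4 : φ (D i).1 '' (D (i + l)).2 = φ (D (i + p)).1 '' (D (i + p + l)).2 := by
      ext y
      constructor
      · intro hy
        have : y ∈ W.filter (fun y => y ∈ φ (D i).1 '' (D (i + l)).2) :=
          Finset.mem_filter.2 ⟨mE i l hl (by omega) y hy, hy⟩
        rw [e3] at this
        exact (Finset.mem_filter.1 this).2
      · intro hy
        have : y ∈ W.filter (fun y => y ∈ φ (D (i + p)).1 '' (D (i + p + l)).2) :=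
          Finset.mem_filter.2 ⟨mE (i + p) l hl (by omega) y hy, hy⟩
        rw [← e3] at this
        exact (Finset.mem_filter.1 this).2
    refine Prod.ext (hg _ _ e2) ?_
    ext y
    constructor
    · rintro ⟨x, hx, rfl⟩
      have : φ (D i).1 x ∈ φ (D (i + p)).1 '' (D (i + p + l)).2 := e4 ▸ ⟨x, hx, rfl⟩
      obtain ⟨x', hx', e5⟩ := this
      rw [hg x x' e5.symm]
      exact hx'
    · intro hy
      have : φ (D (i + p)).1 y ∈ φ (D i).1 '' (D (i + l)).2 := e4 ▸ ⟨y, hy, rfl⟩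
      obtain ⟨x', hx', e5⟩ := this
      exact ⟨x', hx', hg x' y e5⟩
  obtain ⟨D', hD⟩ := periodic (fun a : V × Set V => ((g a.1, g '' a.2) : V × Set V)) D (i := i)
    (R := R) (by omega : 0 < p) hact
  refine ⟨D', hD (fun a b => Pc G s a.1 b.1 a.2) (fun a b h => h.map g) 1 hR
    (fun n hn => h1 _ (by omega)), fun n m h3 h4 => ?_⟩
  obtain ⟨l, rfl⟩ : ∃ l, m = n + l := ⟨m - n, by omega⟩
  exact hD (fun a b => Disjoint a.2 b.2)
    (fun a b h => (Set.disjoint_image_iff g.injective).2 h) l (by omega)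
    (fun n hn => h2 _ _ (by omega) (by omega)) n

end Pool.Agent.P.MP_bb4f54_co.Tr
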