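import Pool.Agent.P.MP_bb4f54_co.Tr.Gap
import Pool.Agent.P.MP_bb4f54_co.Tr.St

set_option autoImplicit false

namespace Pool.Agent.P.MP_bb4f54_co.Tr

open SimpleGraph

variable {V : Type} {G : SimpleGraph V}

/-- From `v` one can walk away from `o`, inside `X`, to distance `T`. -/
inductive Up (G : SimpleGraph V) (o : V) (T : ℕ) (X : Set V) : V → Prop
  | top {v : V} : T ≤ G.dist o v → Up G o T X v
  | step {v u : V} : G.Adj v u → G.dist o u = G.dist o v + 1 → u ∈ X → Up G o T X u →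
      Up G o T X v

lemma Up.univ {o v : V} {T : ℕ} {X : Set V} (h : Up G o T X v) : Up G o T Set.univ v := by
  induction h with
  | top h => exact .top h
  | step h1 h2 _ _ ih => exact .step h1 h2 (Set.mem_univ _) ih

lemma Up.chain {o v : V} {T : ℕ} {X : Set V} (h : Up G o T X v) :
    ∃ γ : ℕ → V, γ 0 = v ∧ ∀ i, G.dist o v + i < T →
      G.Adj (γ i) (γ (i + 1)) ∧ G.dist o (γ (i + 1)) = G.dist o v + i + 1 := by
  induction h with
  | @top v h => exact ⟨fun _ => v, rfl, fun i hi => by omega⟩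
  | @step v u h1 h2 _ _ ih =>
    obtain ⟨γ, e, hγ⟩ := ih
    refine ⟨fun i => Nat.casesOn i v γ, rfl, fun i hi => ?_⟩
    cases i with
    | zero =>
      show G.Adj v (γ 0) ∧ G.dist o (γ 0) = _
      rw [e]
      exact ⟨h1, h2⟩
    | succ i =>
      show G.Adj (γ i) (γ (i + 1)) ∧ G.dist o (γ (i + 1)) = _
      have := hγ i (by omega)
      exact ⟨this.1, by omega⟩

lemma up_origin (hc : G.Connected) {o : V} {T : ℕ} (n : ℕ) :
    ∀ v, G.dist o v = n → Up G o T Set.univ v → Up G o T Set.univ o := by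
  induction n with
  | zero =>
    intro v hv h
    rw [hc.dist_eq_zero_iff.1 hv] at *
    exact h
  | succ n ih =>
    intro v hv h
    obtain ⟨u, h1, h2⟩ := exists_parent hc hv
    exact ih u h2 (.step h1.symm (by omega) (Set.mem_univ _) h)

lemma Dead.fwd {z v w : V} {ρ r : ℕ} (h : Dead G z ρ r v) (h' : RIn G (An G z ρ r) v w) :
    Dead G z ρ r w := fun u hu => h u (h'.trans hu)

/-- The setting of one step. -/
structure SU (G : SimpleGraph V) (o : V) (γ : ℕ → V) (H ρ r r' T : ℕ) : Prop where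
  hc : G.Connected
  h0 : G.dist o (γ 0) = H
  ch : ∀ i, H + i < T → G.Adj (γ i) (γ (i + 1)) ∧ G.dist o (γ (i + 1)) = H + i + 1
  hρ : ρ + 1 ≤ r
  hT : H + 2 * r + 2 ≤ T
  hr' : 4 * T ≤ r'
  st : Stable G ρ r r'

/-- The part of the geodesic before the ball. -/
def Gam (γ : ℕ → V) (ρ r : ℕ) : Set V := {v | ∃ i, i + ρ ≤ r ∧ v = γ i}

/-- Vertices with an escape route avoiding the ball and the entering geodesic. -/
def Good (G : SimpleGraph V) (o : V) (γ : ℕ → V) (ρ r T : ℕ) (v : V) : Prop :=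
  Up G o T {u | ρ < G.dist (γ (r + 1)) u ∧ u ∉ Gam γ ρ r} v

/-- The exit region inside the annulus. -/
def RR (G : SimpleGraph V) (o : V) (γ : ℕ → V) (ρ r T : ℕ) : Set V :=
  {v | v ∈ An G (γ (r + 1)) ρ r ∧ v ∉ Gam γ ρ r ∧
    ∃ w, RIn G (An G (γ (r + 1)) ρ r \ Gam γ ρ r) v w ∧ Good G o γ ρ r T w}

/-- The whole entry region. -/
def EN (G : SimpleGraph V) (o : V) (γ : ℕ → V) (ρ r T : ℕ) : Set V :=
  {v | v ∈ Gam γ ρ r ∨
    (v ∈ An G (γ (r + 1)) ρ r ∧ v ∉ RR G o γ ρ r T ∧ ¬ Dead G (γ (r + 1)) ρ r v)}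

/-- The whole exit region. -/
def EX (G : SimpleGraph V) (o : V) (γ : ℕ → V) (H ρ r T : ℕ) : Set V :=
  {v | v ∈ RR G o γ ρ r T ∨ (r < G.dist (γ (r + 1)) v ∧ v ∉ Gam γ ρ r ∧ H < G.dist o v ∧
    G.dist o v ≤ H + 2 * r + 2 ∧ G.dist (γ (r + 1)) v ≤ 3 * r + 1)}

namespace SU

variable {o : V} {γ : ℕ → V} {H ρ r r' T : ℕ}

lemma ht (S : SU G o γ H ρ r r' T) {i : ℕ} (hi : H + i ≤ T) : G.dist o (γ i) = H + i := by
  cases i with
  | zero => exact S.h0
  | succ i => exact (S.ch i (by omega)).2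

lemma deq (S : SU G o γ H ρ r r' T) (i n : ℕ) (h : H + i + n ≤ T) :
    G.dist (γ i) (γ (i + n)) = n := by
  have h1 : ∀ m, H + i + m ≤ T → G.dist (γ i) (γ (i + m)) ≤ m := by
    intro m
    induction m with
    | zero => simp
    | succ m ih =>
      intro hm
      have h2 := dist_adj_le S.hc (γ i) (S.ch (i + m) (by omega)).1
      have h3 := ih (by omega)
      have e : i + (m + 1) = i + m + 1 := rfl
      rw [e]
      omega
  have h2 := dist_tri S.hc o (γ i) (γ (i + n))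
  rw [S.ht (by omega), S.ht (by omega)] at h2
  have h3 := h1 n h
  omega

lemma dlo (S : SU G o γ H ρ r r' T) {i : ℕ} (hi : i ≤ r + 1) :
    G.dist (γ (r + 1)) (γ i) + i = r + 1 := by
  have hT := S.hT
  have h := S.deq i (r + 1 - i) (by omega)
  rw [show i + (r + 1 - i) = r + 1 by omega, dist_comm] at h
  omega

lemma dhi (S : SU G o γ H ρ r r' T) {i : ℕ} (hi : r + 1 ≤ i) (hi' : H + i ≤ T) :
    G.dist (γ (r + 1)) (γ i) + r + 1 = i := by
  have h := S.deq (r + 1) (i - (r + 1)) (by omega)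
  rw [show r + 1 + (i - (r + 1)) = i by omega] at h
  omega

lemma tri (S : SU G o γ H ρ r r' T) (v : V) :
    H + r + 1 ≤ G.dist o v + G.dist (γ (r + 1)) v ∧
    G.dist o v ≤ H + r + 1 + G.dist (γ (r + 1)) v ∧
    G.dist (γ (r + 1)) v ≤ H + r + 1 + G.dist o v := by
  have hT := S.hT
  have h0 := S.ht (i := r + 1) (by omega)
  have h1 := dist_tri S.hc o v (γ (r + 1))
  have h2 := dist_tri S.hc o (γ (r + 1)) v
  have h3 := dist_tri S.hc (γ (r + 1)) o v
  rw [dist_comm (u := v)] at h1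
  rw [dist_comm (v := o)] at h3
  omega

lemma down (S : SU G o γ H ρ r r' T) {X : Set V} {a : ℕ}
    (hX : ∀ j, a ≤ j → j + ρ ≤ r → γ j ∈ X) (n : ℕ) (hn : a + n + ρ ≤ r) :
    RIn G X (γ (a + n)) (γ a) := by
  have hT := S.hT
  induction n with
  | zero => exact RIn.rfl
  | succ n ih =>
    exact RIn.head (S.ch (a + n) (by omega)).1.symm (hX _ (by omega) (by omega)) (ih (by omega))

lemma nd_gam (S : SU G o γ H ρ r r' T) {i : ℕ} (h1 : 1 ≤ i) (h2 : i + ρ ≤ r) :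
    ¬ Dead G (γ (r + 1)) ρ r (γ i) := by
  intro h
  have h3 := S.down (X := An G (γ (r + 1)) ρ r) (a := 1) (fun j hj hj' => by
    have := S.dlo (i := j) (by omega)
    exact ⟨by omega, by omega⟩) (i - 1) (by omega)
  rw [show 1 + (i - 1) = i by omega] at h3
  have h4 := h _ h3
  have h5 := S.dlo (i := 1) (by omega)
  omega

lemma nd_good (S : SU G o γ H ρ r r' T) {w : V} (h : Good G o γ ρ r T w)
    (hw : w ∈ An G (γ (r + 1)) ρ r) : ¬ Dead G (γ (r + 1)) ρ r w := by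
  have hT := S.hT
  induction h with
  | @top v h =>
    have h1 := S.tri v
    have h2 := hw.2
    omega
  | @step v u h1 _ h3 _ ih =>
    intro hd
    have h4 := hd v RIn.rfl
    have h5 := dist_adj_le S.hc (γ (r + 1)) h1
    have hu : u ∈ An G (γ (r + 1)) ρ r := ⟨h3.1, by omega⟩
    exact ih hu (hd.fwd (RIn.rfl.tail h1 hu))

lemma nd_RR (S : SU G o γ H ρ r r' T) {v : V} (h : v ∈ RR G o γ ρ r T) :
    ¬ Dead G (γ (r + 1)) ρ r v := by
  obtain ⟨h1, _, w, h3, h4⟩ := h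
  have h5 := h3.mono (Y := An G (γ (r + 1)) ρ r) Set.sdiff_subset
  exact fun hd => S.nd_good h4 (h5.mem' h1) (hd.fwd h5)

lemma not_gam (S : SU G o γ H ρ r r' T) {i : ℕ} (h1 : r < i) (h2 : H + i ≤ T) :
    γ i ∉ Gam γ ρ r := by
  rintro ⟨j, hj, e⟩
  have h3 := S.ht h2
  have h4 := S.ht (i := j) (by omega)
  rw [e] at h3
  omega

lemma good_hi (S : SU G o γ H ρ r r' T) (m : ℕ) :
    ∀ i, r + ρ + 2 ≤ i → H + i + m = T → Good G o γ ρ r T (γ i) := by
  induction m with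
  | zero => exact fun i _ h => .top (by rw [S.ht (by omega)]; omega)
  | succ m ih =>
    intro i h1 h2
    have h3 := S.ch i (by omega)
    have h4 := S.dhi (i := i + 1) (by omega) (by omega)
    exact .step h3.1 (by rw [h3.2, S.ht (by omega)])
      ⟨by omega, S.not_gam (by omega) (by omega)⟩ (ih (i + 1) (by omega) (by omega))

lemma low (S : SU G o γ H ρ r r' T) (n : ℕ) :
    ∀ u, G.dist o u = n → n ≤ H → RIn G (An G (γ (r + 1)) ρ r') u o := by
  have hT := S.hT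
  have hr := S.hr'
  have hρ := S.hρ
  induction n with
  | zero =>
    intro u hu _
    rw [S.hc.dist_eq_zero_iff.1 hu]
    exact RIn.rfl
  | succ n ih =>
    intro u hu hn
    obtain ⟨w, h1, h2⟩ := exists_parent S.hc hu
    have h3 := S.tri w
    exact RIn.head h1 ⟨by omega, by omega⟩ (ih w h2 (by omega))

lemma gam_to (S : SU G o γ H ρ r r' T) {i : ℕ} (hi : i + ρ ≤ r) :
    RIn G (An G (γ (r + 1)) ρ r') (γ i) (γ (r - ρ)) := by
  have hT := S.hT
  have hr := S.hr'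
  have hX : ∀ j, i ≤ j → j + ρ ≤ r → γ j ∈ An G (γ (r + 1)) ρ r' := fun j _ hj' => by
    have := S.dlo (i := j) (by omega)
    exact ⟨by omega, by omega⟩
  have h := S.down hX (r - ρ - i) (by omega)
  rw [show i + (r - ρ - i) = r - ρ by omega] at h
  exact h.symm (hX _ (by omega) (by omega))

lemma back (S : SU G o γ H ρ r r' T) {e : V} (n : ℕ) :
    ∀ u, G.dist o u = n → n ≤ 3 * T → ρ < G.dist (γ (r + 1)) u → u ∉ Gam γ ρ r →
      Good G o γ ρ r T u → RIn G (An G (γ (r + 1)) ρ r') e u →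
      RIn G (An G (γ (r + 1)) ρ r') e (γ (r - ρ)) ∨
        ∃ e', G.dist (γ (r + 1)) e' = ρ + 1 ∧ e' ∉ Gam γ ρ r ∧ Good G o γ ρ r T e' ∧
          RIn G (An G (γ (r + 1)) ρ r') e e' := by
  have hT := S.hT
  have hr := S.hr'
  have hρ := S.hρ
  induction n with
  | zero =>
    intro u hu _ _ _ _ h
    rw [← S.hc.dist_eq_zero_iff.1 hu] at h
    have h1 := S.dlo (i := 0) (by omega)
    have h2 := (S.low H (γ 0) S.h0 le_rfl).symm ⟨by omega, by omega⟩
    exact Or.inl ((h.trans h2).trans (S.gam_to (by omega)))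
  | succ n ih =>
    intro u hu hn h1 h2 h3 h
    obtain ⟨w, h4, h5⟩ := exists_parent S.hc hu
    have h6 := dist_adj_le S.hc (γ (r + 1)) h4.symm
    have h7 := S.tri w
    by_cases e1 : G.dist (γ (r + 1)) w ≤ ρ
    · exact Or.inr ⟨u, by omega, h2, h3, h⟩
    · have h8 : RIn G (An G (γ (r + 1)) ρ r') e w := h.tail h4 ⟨by omega, by omega⟩
      by_cases e2 : w ∈ Gam γ ρ r
      · obtain ⟨i, hi, rfl⟩ := e2
        exact Or.inl (h8.trans (S.gam_to hi))
      · exact ih w h5 (by omega) (by omega) e2 (.step h4.symm (by omega) ⟨h1, h2⟩ h3) h8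

lemma reach (S : SU G o γ H ρ r r' T) {e : V} (he : G.dist (γ (r + 1)) e = ρ + 1)
    (hd : ¬ Dead G (γ (r + 1)) ρ r e) :
    RIn G (An G (γ (r + 1)) ρ r) e (γ (r - ρ)) ∨
      ∃ e', e' ∉ Gam γ ρ r ∧ Good G o γ ρ r T e' ∧ RIn G (An G (γ (r + 1)) ρ r) e e' := by
  have hT := S.hT
  have hr := S.hr'
  have hρ := S.hρ
  have h1 : ¬ Dead G (γ (r + 1)) ρ r' e := fun h => hd ((S.st _ e he).1 h)
  have h2 : ∀ w, RIn G (An G (γ (r + 1)) ρ r') e w → G.dist (γ (r + 1)) w < 2 * T ∨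
      ∃ v, RIn G (An G (γ (r + 1)) ρ r') e v ∧ G.dist (γ (r + 1)) v = 2 * T := by
    intro w hw
    induction hw with
    | refl => exact Or.inl (by omega)
    | @tail u w h3 h4 ih =>
      rcases ih with ih | ih
      · have h5 := dist_adj_le S.hc (γ (r + 1)) h4.1
        by_cases e1 : G.dist (γ (r + 1)) w = 2 * T
        · exact Or.inr ⟨w, RIn.tail h3 h4.1 h4.2, e1⟩
        · exact Or.inl (by omega)
      · exact Or.inr ih
  obtain ⟨v, hv, hv'⟩ : ∃ v, RIn G (An G (γ (r + 1)) ρ r') e v ∧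
      G.dist (γ (r + 1)) v = 2 * T := by
    by_contra hcon
    refine h1 (fun w hw => ?_)
    rcases h2 w hw with h | h
    · omega
    · exact absurd h hcon
  have h3 := S.tri v
  have h4 : v ∉ Gam γ ρ r := by
    rintro ⟨i, hi, rfl⟩
    have := S.dlo (i := i) (by omega)
    omega
  have h5 := S.dlo (i := r - ρ) (by omega)
  rcases S.back _ v rfl (by omega) (by omega) h4 (.top (by omega)) hv with h | ⟨e', a, b, c, h⟩
  · exact Or.inl ((S.st _ e he).2 _ (by omega) h)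
  · exact Or.inr ⟨e', b, c, (S.st _ e he).2 _ a h⟩

lemma gam_en (S : SU G o γ H ρ r r' T) {v : V} (h : v ∈ Gam γ ρ r) :
    RIn G (EN G o γ ρ r T) v (γ 0) := by
  obtain ⟨i, hi, rfl⟩ := h
  have := S.down (X := EN G o γ ρ r T) (a := 0) (fun j _ hj => Or.inl ⟨j, hj, rfl⟩) i (by omega)
  rwa [Nat.zero_add] at this

lemma entry (S : SU G o γ H ρ r r' T) {e : V} (he : G.dist (γ (r + 1)) e = ρ + 1)
    (hR : e ∉ RR G o γ ρ r T) (hd : ¬ Dead G (γ (r + 1)) ρ r e) :
    RIn G (EN G o γ ρ r T) e (γ 0) := by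
  have hρ := S.hρ
  by_cases e0 : e ∈ Gam γ ρ r
  · exact S.gam_en e0
  have heA : e ∈ An G (γ (r + 1)) ρ r := ⟨by omega, by omega⟩
  have h1 : ∀ u, RIn G (An G (γ (r + 1)) ρ r \ Gam γ ρ r) e u → RIn G (EN G o γ ρ r T) e u := by
    intro u hu
    induction hu with
    | refl => exact RIn.rfl
    | @tail u w h3 h4 ih =>
      have h5 : RIn G (An G (γ (r + 1)) ρ r \ Gam γ ρ r) e w := RIn.tail h3 h4.1 h4.2
      refine ih.tail h4.1 (Or.inr ⟨h4.2.1, fun h => hR ?_, fun h => hd ?_⟩)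
      · obtain ⟨_, _, w', h6, h7⟩ := h
        exact ⟨heA, e0, w', h5.trans h6, h7⟩
      · exact h.fwd ((h5.mono Set.sdiff_subset).symm heA)
  have h2 : ∀ w, RIn G (An G (γ (r + 1)) ρ r) e w →
      RIn G (An G (γ (r + 1)) ρ r \ Gam γ ρ r) e w ∨ RIn G (EN G o γ ρ r T) e (γ 0) := by
    intro w hw
    induction hw with
    | refl => exact Or.inl RIn.rfl
    | @tail u w _ h4 ih =>
      rcases ih with ih | ih
      · by_cases e1 : w ∈ Gam γ ρ r
        · exact Or.inr (((h1 u ih).tail h4.1 (Or.inl e1)).trans (S.gam_en e1))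
        · exact Or.inl (ih.tail h4.1 ⟨h4.2, e1⟩)
      · exact Or.inr ih
  rcases S.reach he hd with h | ⟨e', _, c, h⟩
  · rcases h2 _ h with h3 | h3
    · exact absurd ⟨r - ρ, by omega, rfl⟩ (h3.mem' ⟨heA, e0⟩).2
    · exact h3
  · rcases h2 _ h with h3 | h3
    · exact absurd ⟨heA, e0, e', h3, c⟩ hR
    · exact h3

lemma climb (S : SU G o γ H ρ r r' T) {x : V} (h : Good G o γ ρ r T x) :
    H < G.dist o x → G.dist o x ≤ H + 2 * r + 2 →
      G.dist (γ (r + 1)) x + H + 1 ≤ r + G.dist o x →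
      ∃ h', G.dist o h' = H + 2 * r + 2 ∧ Up G o T Set.univ h' ∧
        RIn G (EX G o γ H ρ r T) x h' := by
  have hT := S.hT
  induction h with
  | @top v h => exact fun _ _ _ => ⟨v, by omega, .top h, RIn.rfl⟩
  | @step v u h1 h2 h3 h4 ih =>
    intro a b c
    by_cases e : G.dist o v = H + 2 * r + 2
    · exact ⟨v, e, .step h1 h2 (Set.mem_univ _) h4.univ, RIn.rfl⟩
    · have h5 := dist_adj_le S.hc (γ (r + 1)) h1
      obtain ⟨h', a', b', c'⟩ := ih (by omega) (by omega) (by omega)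
      refine ⟨h', a', b', RIn.head h1 ?_ c'⟩
      by_cases e1 : G.dist (γ (r + 1)) u ≤ r
      · exact Or.inl ⟨⟨h3.1, e1⟩, h3.2, u, RIn.rfl, h4⟩
      · exact Or.inr ⟨by omega, h3.2, by omega, by omega, by omega⟩

lemma exit (S : SU G o γ H ρ r r' T) {e : V} (he : e ∈ RR G o γ ρ r T) :
    ∃ h', G.dist o h' = H + 2 * r + 2 ∧ Up G o T Set.univ h' ∧ RIn G (EX G o γ H ρ r T) e h' := by
  obtain ⟨h1, h2, w, h3, h4⟩ := he
  have h5 := (h3.mem' ⟨h1, h2⟩).1.2
  have h6 := S.tri w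
  obtain ⟨h', a, b, c⟩ := S.climb h4 (by omega) (by omega) (by omega)
  refine ⟨h', a, b, RIn.trans ?_ c⟩
  clear h1 h2
  induction h3 using Relation.ReflTransGen.head_induction_on with
  | refl => exact RIn.rfl
  | head h7 h8 ih => exact RIn.head h7.1 (Or.inl ⟨h7.2.1, h7.2.2, w, h8, h4⟩) ih

end SU

end Pool.Agent.P.MP_bb4f54_co.Tr
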