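import Pool.Agent.P.MP_bb4f54_co.Tr.Setup

set_option autoImplicit false

namespace Pool.Agent.P.MP_bb4f54_co.Tr

open SimpleGraph

variable {V : Type} {G : SimpleGraph V}

/-- A path of length `l` from `a` to `b` inside `W`. -/
def PIn (G : SimpleGraph V) (W : Set V) (a b : V) (l : ℕ) : Prop :=
  ∃ p : G.Walk a b, p.IsPath ∧ p.length = l ∧ ∀ x ∈ p.support, x ∈ W

/-- A path of length `l` from `a` to `b` between the levels of `a` and `b`. -/
def Seg (G : SimpleGraph V) (o a b : V) (l : ℕ) : Prop :=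
  PIn G {x | x = a ∨ (G.dist o a < G.dist o x ∧ G.dist o x ≤ G.dist o b)} a b l

lemma two_side {N X W : Set V} {h x y h' : V} (hxy : G.Adj y x) (hd : ∀ v ∈ N, v ∉ X)
    (hxN : x ∉ N) (hyX : y ∉ X) {px : G.Walk h x} (hpx : px.IsPath)
    (sx : ∀ v ∈ px.support, v = x ∨ v ∈ N) {py : G.Walk h y} (hpy : py.IsPath)
    (sy : ∀ v ∈ py.support, v = y ∨ v ∈ N) (hx : RIn G X x h') (hN : N ⊆ W) (hX : X ⊆ W)
    (hxW : x ∈ W) (hyW : y ∈ W) :
    ∃ m, PIn G W h h' (px.length + m) ∧ PIn G W h h' (py.length + 1 + m) := by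
  obtain ⟨q, hq, sq⟩ := hx.path
  have hqW : ∀ v ∈ q.support, v ∈ W := fun v hv => by
    rcases sq v hv with rfl | h1
    · exact hxW
    · exact hX h1
  refine ⟨q.length, ⟨px.append q, path_append hpx hq ?_, by simp, ?_⟩,
    ⟨py.append (Walk.cons hxy q), path_append hpy (hq.cons ?_) ?_, by simp; omega, ?_⟩⟩
  · intro v h1 h2
    rcases sx v h1 with h3 | h3
    · exact h3
    · rcases sq v h2 with h4 | h4
      · exact h4
      · exact absurd h4 (hd v h3)
  · intro v hv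
    rcases (Walk.mem_support_append_iff _ _).1 hv with h1 | h1
    · rcases sx v h1 with rfl | h2
      · exact hxW
      · exact hN h2
    · exact hqW v h1
  · intro h1
    rcases sq y h1 with h2 | h2
    · exact hxy.ne h2
    · exact hyX h2
  · intro v h1 h2
    rcases sy v h1 with h3 | h3
    · exact h3
    · rw [Walk.support_cons, List.mem_cons] at h2
      rcases h2 with h2 | h2
      · exact h2
      · rcases sq v h2 with rfl | h4
        · exact absurd h3 hxN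
        · exact absurd h4 (hd v h3)
  · intro v hv
    rcases (Walk.mem_support_append_iff _ _).1 hv with h1 | h1
    · rcases sy v h1 with rfl | h2
      · exact hyW
      · exact hN h2
    · rw [Walk.support_cons, List.mem_cons] at h1
      rcases h1 with rfl | h1
      · exact hyW
      · exact hqW v h1

lemma RIn.rpath {X : Set V} {a b : V} (h : RIn G X a b) :
    ∃ p : G.Walk b a, p.IsPath ∧ ∀ x ∈ p.support, x = a ∨ x ∈ X := by
  obtain ⟨p, hp, hs⟩ := h.path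
  refine ⟨p.reverse, hp.reverse, fun x hx => hs x ?_⟩
  rwa [Walk.support_reverse, List.mem_reverse] at hx

/-- The ball together with the dead components of the annulus. -/
def II (G : SimpleGraph V) (z : V) (ρ r : ℕ) : Set V :=
  {v | G.dist z v ≤ ρ ∨ (v ∈ An G z ρ r ∧ Dead G z ρ r v)}

lemma root_all (hc : G.Connected) {z : V} {ρ r : ℕ} {T : Set V} (h : Root G (II G z ρ r) T z)
    (n : ℕ) : ∀ v, G.dist z v = n → v ∈ II G z ρ r → Root G (II G z ρ r) T v := by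
  induction n with
  | zero =>
    intro v hv _
    rw [← hc.dist_eq_zero_iff.1 hv]
    exact h
  | succ n ih =>
    intro v hv hI
    obtain ⟨u, h1, h2⟩ := exists_parent hc hv
    have hu : u ∈ II G z ρ r := by
      by_cases e : n ≤ ρ
      · exact Or.inl (by omega)
      · rcases hI with h3 | ⟨h3, h4⟩
        · omega
        · have h5 := h3.2
          have h6 : u ∈ An G z ρ r := ⟨by omega, by omega⟩
          exact Or.inr ⟨h6, h4.fwd (RIn.rfl.tail h1 h6)⟩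
    exact .step h1 hu (ih u h2 hu)

namespace SU

variable {o : V} {γ : ℕ → V} {H ρ r r' T : ℕ}

lemma gam_I (S : SU G o γ H ρ r r' T) {v : V} (h : v ∈ Gam γ ρ r) :
    v ∉ II G (γ (r + 1)) ρ r := by
  obtain ⟨i, hi, rfl⟩ := h
  have h1 := S.dlo (i := i) (by omega)
  rintro (h2 | ⟨h2, h3⟩)
  · omega
  · have h4 := h2.2
    exact S.nd_gam (by omega) hi h3

lemma en_I (S : SU G o γ H ρ r r' T) {v : V} (h : v ∈ EN G o γ ρ r T) :
    v ∉ II G (γ (r + 1)) ρ r := by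
  rcases h with h | ⟨h1, _, h3⟩
  · exact S.gam_I h
  · rintro (h4 | h4)
    · have := h1.1
      omega
    · exact h3 h4.2

lemma ex_I (S : SU G o γ H ρ r r' T) {v : V} (h : v ∈ EX G o γ H ρ r T) :
    v ∉ II G (γ (r + 1)) ρ r := by
  have hρ := S.hρ
  rcases h with h | ⟨h1, _⟩
  · rintro (h4 | h4)
    · have := h.1.1
      omega
    · exact S.nd_RR h h4.2
  · rintro (h4 | h4)
    · omega
    · have := h4.1.2
      omega

lemma en_ex {v : V} (h : v ∈ EN G o γ ρ r T) : v ∉ EX G o γ H ρ r T := by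
  rintro (h1 | h1)
  · rcases h with h | h
    · exact h1.2.1 h
    · exact h.2.1 h1
  · rcases h with h | h
    · exact h1.2.1 h
    · have := h.1.2
      omega

lemma sth (S : SU G o γ H ρ r r' T) (hn : ∀ v, (G.induce ({v}ᶜ : Set V)).Connected) :
    STH G (II G (γ (r + 1)) ρ r)
      {v | G.dist (γ (r + 1)) v = ρ + 1 ∧ v ∉ RR G o γ ρ r T ∧ ¬ Dead G (γ (r + 1)) ρ r v}
      (RR G o γ ρ r T) := by
  have hρ := S.hρ
  have hT := S.hT
  refine ⟨?_, ?_, ?_, ?_⟩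
  · intro v hv w hw
    have h1 := dist_adj_le S.hc (γ (r + 1)) hw
    by_cases e : G.dist (γ (r + 1)) w ≤ ρ
    · exact Or.inl (Or.inl e)
    rcases hv with hv | ⟨_, hv⟩
    · by_cases e1 : Dead G (γ (r + 1)) ρ r w
      · exact Or.inl (Or.inr ⟨⟨by omega, by omega⟩, e1⟩)
      · by_cases e2 : w ∈ RR G o γ ρ r T
        · exact Or.inr (Or.inr e2)
        · exact Or.inr (Or.inl ⟨by omega, e2, e1⟩)
    · have h2 := hv v RIn.rfl
      have h3 : w ∈ An G (γ (r + 1)) ρ r := ⟨by omega, by omega⟩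
      exact Or.inl (Or.inr ⟨h3, hv.fwd (RIn.rfl.tail hw h3)⟩)
  · rintro X v hX ⟨s, hs⟩ hv
    obtain ⟨b, hb1, hb2⟩ : ∃ b, b ∈ Gam γ ρ r ∧ b ≠ v := by
      by_cases e : γ 0 = v
      · refine ⟨γ 1, ⟨1, by omega, rfl⟩, fun e' => ?_⟩
        exact (S.ch 0 (by omega)).1.ne (e.trans e'.symm)
      · exact ⟨γ 0, ⟨0, by omega, rfl⟩, e⟩
    exact (rin_of_induce (hn v) (fun e => hv (e ▸ hs)) hb2).exit hs (fun h => S.gam_I hb1 (hX h))
  · have h1 : ∀ j, j ≤ ρ → Root G (II G (γ (r + 1)) ρ r) {v | G.dist (γ (r + 1)) v = ρ + 1 ∧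
        v ∉ RR G o γ ρ r T ∧ ¬ Dead G (γ (r + 1)) ρ r v} (γ (r - ρ + j + 1)) := by
      intro j
      induction j with
      | zero =>
        intro _
        have h2 := S.dlo (i := r - ρ) (by omega)
        exact .base (S.ch (r - ρ) (by omega)).1.symm ⟨by omega,
          fun h => h.2.1 ⟨r - ρ, by omega, rfl⟩, S.nd_gam (by omega) (by omega)⟩
      | succ j ih =>
        intro hj
        have h2 := S.dlo (i := r - ρ + j + 1) (by omega)
        exact .step (S.ch (r - ρ + j + 1) (by omega)).1.symm (Or.inl (by omega)) (ih (by omega))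
    have h2 := h1 ρ le_rfl
    rw [show r - ρ + ρ + 1 = r + 1 by omega] at h2
    exact fun v hv => root_all S.hc h2 _ v rfl hv
  · have h1 : ∀ j i, i + j = r + ρ + 1 → r + 1 ≤ i →
        Root G (II G (γ (r + 1)) ρ r) (RR G o γ ρ r T) (γ i) := by
      intro j
      induction j with
      | zero =>
        intro i hi _
        have h2 := S.dhi (i := i + 1) (by omega) (by omega)
        exact .base (S.ch i (by omega)).1 ⟨⟨by omega, by omega⟩, S.not_gam (by omega) (by omega),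
          _, RIn.rfl, S.good_hi (T - (H + (i + 1))) (i + 1) (by omega) (by omega)⟩
      | succ j ih =>
        intro i hi hi'
        have h2 := S.dhi (i := i + 1) (by omega) (by omega)
        exact .step (S.ch i (by omega)).1 (Or.inl (by omega)) (ih (i + 1) (by omega) (by omega))
    exact fun v hv => root_all S.hc (h1 ρ (r + 1) (by omega) le_rfl) _ v rfl hv

end SU

/-- Two paths from `h` to a vertex `c` levels higher with `l₁ + a = l₂ + b + 1`. -/
def Out (G : SimpleGraph V) (o : V) (T c s : ℕ) (h : V) (a b : ℕ) : Prop :=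
  ∃ h', Up G o T Set.univ h' ∧ G.dist o h' = G.dist o h + c ∧ ∃ l₁ l₂, l₁ ≤ s ∧ l₂ ≤ s ∧
    Seg G o h h' l₁ ∧ Seg G o h h' l₂ ∧ l₁ + a = l₂ + b + 1

lemma step [Fintype V] (hc : G.Connected) (hn : ∀ v, (G.induce ({v}ᶜ : Set V)).Connected)
    (h3 : ∀ v, ∃ a b c, G.Adj v a ∧ G.Adj v b ∧ G.Adj v c ∧ a ≠ b ∧ a ≠ c ∧ b ≠ c)
    {d ρ r r' T : ℕ} (hd : ∀ v, (NB G v).card ≤ d) (hZ : Near G ρ) (hρ : ρ + 1 ≤ r)
    (hr' : 4 * T ≤ r') (st : Stable G ρ r r') {o h : V} (hh : Up G o T Set.univ h)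
    (hT : G.dist o h + (2 * r + 2) ≤ T) :
    ∃ a b, a ≤ (d + 1) ^ (3 * r + 1) ∧ b ≤ (d + 1) ^ (3 * r + 1) ∧
      Out G o T (2 * r + 2) ((d + 1) ^ (3 * r + 1)) h a b ∧
      Out G o T (2 * r + 2) ((d + 1) ^ (3 * r + 1)) h b a := by
  obtain ⟨γ, rfl, hγ⟩ := hh.chain
  have S : SU G o γ (G.dist o (γ 0)) ρ r r' T := ⟨hc, rfl, hγ, hρ, by omega, hr', st⟩
  obtain ⟨Z, hZ1, hZ2, hZ3⟩ := hZ (γ (r + 1))
  obtain ⟨x, y, A, B, hx, hy, hxy, hA, hB, hAB, hxA, hxB, hyA, hyB, r1, r2, r3, r4⟩ :=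
    (S.sth hn).cross h3 (fun v hv => Or.inl (hZ2 v hv)) hZ1 hZ3
  have hin : ∀ v, Root G A {v | G.dist (γ (r + 1)) v = ρ + 1 ∧ v ∉ RR G o γ ρ r T ∧
      ¬ Dead G (γ (r + 1)) ρ r v} v → RIn G (A ∪ EN G o γ ρ r T) v (γ 0) := fun v hv => by
    obtain ⟨t, ht, h1⟩ := hv.rin (Y := A ∪ EN G o γ ρ r T)
      (fun u hu => Or.inr (Or.inr ⟨⟨by have := hu.1; omega, by have := hu.1; omega⟩, hu.2⟩))
      Set.subset_union_left
    exact h1.trans ((S.entry ht.1 ht.2.1 ht.2.2).mono Set.subset_union_right)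
  have hout : ∀ v, Root G B (RR G o γ ρ r T) v → ∃ h', G.dist o h' = G.dist o (γ 0) + 2 * r + 2 ∧
      Up G o T Set.univ h' ∧ RIn G (B ∪ EX G o γ (G.dist o (γ 0)) ρ r T) v h' := fun v hv => by
    obtain ⟨t, ht, h1⟩ := hv.rin (Y := B ∪ EX G o γ (G.dist o (γ 0)) ρ r T)
      (fun u hu => Or.inr (Or.inl hu)) Set.subset_union_left
    obtain ⟨h', a, b, c⟩ := S.exit ht
    exact ⟨h', a, b, h1.trans (c.mono Set.subset_union_right)⟩
  obtain ⟨px, hpx, sx⟩ := (hin x r1).rpath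
  obtain ⟨py, hpy, sy⟩ := (hin y r2).rpath
  let W : Set V := {v | G.dist (γ (r + 1)) v ≤ 3 * r + 1 ∧ (v = γ 0 ∨
    (G.dist o (γ 0) < G.dist o v ∧ G.dist o v ≤ G.dist o (γ 0) + 2 * r + 2))}
  have hW : ∀ v, G.dist (γ (r + 1)) v ≤ r → v ∈ W := fun v hv => by
    have := S.tri v
    exact ⟨by omega, Or.inr ⟨by omega, by omega⟩⟩
  have hIW : ∀ v ∈ II G (γ (r + 1)) ρ r, v ∈ W := fun v hv => by
    rcases hv with hv | hv
    · exact hW v (by omega)
    · exact hW v hv.1.2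
  have hNW : A ∪ EN G o γ ρ r T ⊆ W := by
    rintro v (hv | ⟨i, hi, rfl⟩ | hv)
    · exact hIW v (hA hv)
    · have h1 := S.dlo (i := i) (by omega)
      cases i with
      | zero => exact ⟨by omega, Or.inl rfl⟩
      | succ i => exact hW _ (by omega)
    · exact hW v hv.1.2
  have hXW : B ∪ EX G o γ (G.dist o (γ 0)) ρ r T ⊆ W := by
    rintro v (hv | hv | hv)
    · exact hIW v (hB hv)
    · exact hW v hv.1.2
    · exact ⟨hv.2.2.2.2, Or.inr ⟨hv.2.2.1, hv.2.2.2.1⟩⟩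
  have hNX : ∀ v ∈ A ∪ EN G o γ ρ r T, v ∉ B ∪ EX G o γ (G.dist o (γ 0)) ρ r T := by
    rintro v (h1 | h1) (h2 | h2)
    · exact hAB v h1 h2
    · exact S.ex_I h2 (hA h1)
    · exact S.en_I h1 (hB h2)
    · exact SU.en_ex h1 h2
  have hlen : ∀ {a b : V} (p : G.Walk a b), p.IsPath → (∀ v ∈ p.support, v ∈ W) →
      p.length ≤ (d + 1) ^ (3 * r + 1) := fun p hp hs =>
    (path_length_le hp (fun v hv => mem_BW_of_dist hc (hs v hv).1)).trans (card_BW hd _ _)
  have hseg : ∀ h' l, G.dist o h' = G.dist o (γ 0) + 2 * r + 2 → PIn G W (γ 0) h' l →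
      l ≤ (d + 1) ^ (3 * r + 1) ∧ Seg G o (γ 0) h' l := by
    rintro h' l e ⟨p, hp, rfl, hs⟩
    refine ⟨hlen p hp hs, p, hp, rfl, fun v hv => ?_⟩
    have := (hs v hv).2
    rw [← e] at this
    exact this
  have hxN : x ∉ A ∪ EN G o γ ρ r T := fun h => h.elim hxA (fun h => S.en_I h hx)
  have hyN : y ∉ A ∪ EN G o γ ρ r T := fun h => h.elim hyA (fun h => S.en_I h hy)
  have hxX : x ∉ B ∪ EX G o γ (G.dist o (γ 0)) ρ r T := fun h => h.elim hxB (fun h => S.ex_I h hx)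
  have hyX : y ∉ B ∪ EX G o γ (G.dist o (γ 0)) ρ r T := fun h => h.elim hyB (fun h => S.ex_I h hy)
  refine ⟨px.length, py.length, hlen px hpx (fun v hv => ?_), hlen py hpy (fun v hv => ?_), ?_, ?_⟩
  · rcases sx v hv with rfl | h1
    · exact hIW _ hx
    · exact hNW h1
  · rcases sy v hv with rfl | h1
    · exact hIW _ hy
    · exact hNW h1
  · obtain ⟨h', e, hu, h1⟩ := hout x r3
    obtain ⟨m, p1, p2⟩ := two_side hxy.symm hNX hxN hyX hpx sx hpy sy h1 hNW hXW (hIW _ hx)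
      (hIW _ hy)
    exact ⟨h', hu, by omega, _, _, (hseg _ _ e p2).1, (hseg _ _ e p1).1, (hseg _ _ e p2).2,
      (hseg _ _ e p1).2, by omega⟩
  · obtain ⟨h', e, hu, h1⟩ := hout y r4
    obtain ⟨m, p1, p2⟩ := two_side hxy hNX hyN hxX hpy sy hpx sx h1 hNW hXW (hIW _ hy)
      (hIW _ hx)
    exact ⟨h', hu, by omega, _, _, (hseg _ _ e p2).1, (hseg _ _ e p1).1, (hseg _ _ e p2).2,
      (hseg _ _ e p1).2, by omega⟩

end Pool.Agent.P.MP_bb4f54_co.Tr
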