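import Pool.Agent.P.MP_bb4f54_co.Tr.Step

set_option autoImplicit false

namespace Pool.Agent.P.MP_bb4f54_co.Tr

open SimpleGraph

variable {V : Type} {G : SimpleGraph V}

lemma Seg.append {o a b c : V} {l l' : ℕ} (h : Seg G o a b l) (h' : Seg G o b c l')
    (hbc : G.dist o b ≤ G.dist o c) : Seg G o a c (l + l') := by
  obtain ⟨p, hp, rfl, sp⟩ := h
  obtain ⟨q, hq, rfl, sq⟩ := h'
  have hab : G.dist o a ≤ G.dist o b := by
    rcases sp b p.end_mem_support with h | h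
    · rw [h]
    · exact h.1.le
  have h1 : ∀ x ∈ p.support, x = a ∨ (G.dist o a < G.dist o x ∧ G.dist o x ≤ G.dist o c) :=
    fun x hx => by
      rcases sp x hx with h | h
      · exact Or.inl h
      · exact Or.inr ⟨h.1, h.2.trans hbc⟩
  refine ⟨p.append q, path_append hp hq (fun x hx hx' => ?_), by simp, fun x hx => ?_⟩
  · rcases sq x hx' with h | h
    · exact h
    · rcases sp x hx with h2 | h2
      · rw [h2] at h
        omega
      · omega
  · rcases (Walk.mem_support_append_iff _ _).1 hx with hx | hx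
    · exact h1 x hx
    · rcases sq x hx with h | h
      · rw [h]
        exact h1 b p.end_mem_support
      · exact Or.inr ⟨by omega, h.2⟩

lemma super {o : V} {T c s : ℕ} (hc : 0 < c)
    (hs : ∀ h, Up G o T Set.univ h → G.dist o h + c ≤ T →
      ∃ a b, a ≤ s ∧ b ≤ s ∧ Out G o T c s h a b ∧ Out G o T c s h b a)
    {h : V} (hh : Up G o T Set.univ h) (hT : G.dist o h + ((s + 1) * (s + 1) + 1) * c ≤ T) :
    ∃ h', Up G o T Set.univ h' ∧ G.dist o h < G.dist o h' ∧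
      G.dist o h' ≤ G.dist o h + ((s + 1) * (s + 1) + 1) * c ∧
      ∃ l, l + 2 ≤ ((s + 1) * (s + 1) + 1) * s ∧ Seg G o h h' l ∧ Seg G o h h' (l + 2) := by
  classical
  by_contra hcon
  have key : ∀ n, n ≤ (s + 1) * (s + 1) + 1 → ∃ (h1 : V) (Sn : Finset (ℕ × ℕ)),
      Up G o T Set.univ h1 ∧ G.dist o h1 = G.dist o h + n * c ∧ Sn.card = n ∧
      Sn ⊆ Finset.range (s + 1) ×ˢ Finset.range (s + 1) ∧ (∃ l, l ≤ n * s ∧ Seg G o h h1 l) ∧
      ∀ ab ∈ Sn, ∃ l₁ l₂, l₁ ≤ n * s ∧ l₂ ≤ n * s ∧ Seg G o h h1 l₁ ∧ Seg G o h h1 l₂ ∧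
        l₁ + ab.1 = l₂ + ab.2 + 1 := by
    intro n
    induction n with
    | zero =>
      intro _
      exact ⟨h, ∅, hh, by simp, rfl, by simp, ⟨0, by simp, Walk.nil, Walk.IsPath.nil, rfl,
        by simp⟩, by simp⟩
    | succ n ih =>
      intro hn
      obtain ⟨h1, Sn, a1, a2, a3, a4, ⟨l, a5, a6⟩, a7⟩ := ih (by omega)
      have b1 : (n + 1) * c ≤ ((s + 1) * (s + 1) + 1) * c := Nat.mul_le_mul_right _ hn
      have b2 : (n + 1) * s ≤ ((s + 1) * (s + 1) + 1) * s := Nat.mul_le_mul_right _ hn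
      have b3 : (n + 1) * c = n * c + c := by ring
      have b4 : (n + 1) * s = n * s + s := by ring
      obtain ⟨a, b, ha, hb, o1, o2⟩ := hs h1 a1 (by omega)
      by_cases e : (a, b) ∈ Sn
      · exfalso
        obtain ⟨l₁, l₂, c1, c2, c3, c4, c5⟩ := a7 _ e
        obtain ⟨h', d1, d2, m₁, m₂, d3, d4, d5, d6, d7⟩ := o2
        simp only at c5
        refine hcon ⟨h', d1, by omega, by omega, l₂ + m₂, by omega, c4.append d6 (by omega), ?_⟩
        rw [show l₂ + m₂ + 2 = l₁ + m₁ by omega]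
        exact c3.append d5 (by omega)
      · obtain ⟨h', d1, d2, m₁, m₂, d3, d4, d5, d6, d7⟩ := o1
        refine ⟨h', insert (a, b) Sn, d1, by omega, by rw [Finset.card_insert_of_notMem e, a3],
          Finset.insert_subset (by simp; omega) a4, ⟨l + m₁, by omega, a6.append d5 (by omega)⟩, ?_⟩
        intro ab hab
        rcases Finset.mem_insert.1 hab with rfl | hab
        · exact ⟨l + m₁, l + m₂, by omega, by omega, a6.append d5 (by omega),
            a6.append d6 (by omega), by simp only; omega⟩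
        · obtain ⟨l₁, l₂, c1, c2, c3, c4, c5⟩ := a7 _ hab
          exact ⟨l₁ + m₁, l₂ + m₁, by omega, by omega, c3.append d5 (by omega),
            c4.append d5 (by omega), by omega⟩
  obtain ⟨_, Sn, _, _, a3, a4, _⟩ := key _ le_rfl
  have := Finset.card_le_card a4
  rw [Finset.card_product, Finset.card_range] at this
  omega

/-- A piece: two paths from `a` to `b` through `E` with lengths differing by two. -/
def Pc (G : SimpleGraph V) (s : ℕ) (a b : V) (E : Set V) : Prop :=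
  a ∉ E ∧ b ∈ E ∧ (∃ l, l + 2 ≤ s ∧ PIn G (insert a E) a b l ∧ PIn G (insert a E) a b (l + 2)) ∧
    ∀ x ∈ E, (∃ w : G.Walk a x, w.length ≤ s ∧ ∀ y ∈ w.support, y = a ∨ y ∈ E) ∧
      (∃ w : G.Walk x b, w.length ≤ s ∧ ∀ y ∈ w.support, y ∈ E)

lemma split_path {a b x : V} {p : G.Walk a b} (hp : p.IsPath) (hx : x ∈ p.support) (hxa : x ≠ a) :
    (∃ w : G.Walk a x, w.length ≤ p.length ∧ ∀ y ∈ w.support, y ∈ p.support) ∧
      (∃ w : G.Walk x b, w.length ≤ p.length ∧ ∀ y ∈ w.support, y ∈ p.support ∧ y ≠ a) := by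
  classical
  refine ⟨⟨p.takeUntil x hx, p.length_takeUntil_le_length hx,
    fun y hy => p.support_takeUntil_subset_support hx hy⟩, ?_⟩
  cases p with
  | nil => simp [hxa] at hx
  | cons h q =>
    rw [Walk.support_cons, List.mem_cons] at hx
    have hx' : x ∈ q.support := hx.resolve_left hxa
    rw [Walk.cons_isPath_iff] at hp
    refine ⟨q.dropUntil x hx', ?_, fun y hy => ?_⟩
    · have := q.length_dropUntil_le_length hx'
      simp only [Walk.length_cons]
      omega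
    · have h1 := q.support_dropUntil_subset_support hx' hy
      exact ⟨by simp [h1], fun e => hp.2 (e ▸ h1)⟩

lemma pc_of_seg {o a b : V} {l s : ℕ} (hab : G.dist o a < G.dist o b) (hl : l + 2 ≤ s)
    (h1 : Seg G o a b l) (h2 : Seg G o a b (l + 2)) :
    ∃ E, Pc G s a b E ∧ ∀ x ∈ E, G.dist o a < G.dist o x ∧ G.dist o x ≤ G.dist o b := by
  obtain ⟨p, hp, lp, sp⟩ := h1
  obtain ⟨q, hq, lq, sq⟩ := h2
  have hne : b ≠ a := fun e => by
    rw [e] at hab
    omega
  have hi : ∀ y, (y ∈ p.support ∨ y ∈ q.support) →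
      y = a ∨ y ∈ ({x | (x ∈ p.support ∨ x ∈ q.support) ∧ x ≠ a} : Set V) := fun y hy => by
    by_cases e : y = a
    · exact Or.inl e
    · exact Or.inr ⟨hy, e⟩
  refine ⟨{x | (x ∈ p.support ∨ x ∈ q.support) ∧ x ≠ a}, ⟨fun h => h.2 rfl,
    ⟨Or.inl p.end_mem_support, hne⟩, ⟨l, hl, ⟨p, hp, lp, fun x hx => hi x (Or.inl hx)⟩,
      ⟨q, hq, lq, fun x hx => hi x (Or.inr hx)⟩⟩, ?_⟩, ?_⟩
  · rintro x ⟨hx | hx, hxa⟩
    · obtain ⟨⟨w, a1, a2⟩, ⟨w', a3, a4⟩⟩ := split_path hp hx hxa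
      exact ⟨⟨w, by omega, fun y hy => hi y (Or.inl (a2 y hy))⟩,
        ⟨w', by omega, fun y hy => ⟨Or.inl (a4 y hy).1, (a4 y hy).2⟩⟩⟩
    · obtain ⟨⟨w, a1, a2⟩, ⟨w', a3, a4⟩⟩ := split_path hq hx hxa
      exact ⟨⟨w, by omega, fun y hy => hi y (Or.inr (a2 y hy))⟩,
        ⟨w', by omega, fun y hy => ⟨Or.inr (a4 y hy).1, (a4 y hy).2⟩⟩⟩
  · rintro x ⟨hx | hx, hxa⟩
    · exact (sp x hx).resolve_left hxa
    · exact (sq x hx).resolve_left hxa

lemma chain {o : V} {T C s M : ℕ}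
    (hs : ∀ h, Up G o T Set.univ h → G.dist o h + C ≤ T → ∃ h', Up G o T Set.univ h' ∧
      G.dist o h < G.dist o h' ∧ G.dist o h' ≤ G.dist o h + C ∧
      ∃ l, l + 2 ≤ s ∧ Seg G o h h' l ∧ Seg G o h h' (l + 2))
    (ho : Up G o T Set.univ o) (hM : M * C ≤ T) :
    ∃ D : ℕ → V × Set V, (∀ n, n < M → Pc G s (D n).1 (D (n + 1)).1 (D n).2) ∧
      ∀ n m, n < m → m < M → Disjoint (D n).2 (D m).2 := by
  have h1 : ∀ h, Up G o T Set.univ h → G.dist o h + C ≤ T → ∃ h' E, Up G o T Set.univ h' ∧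
      G.dist o h < G.dist o h' ∧ G.dist o h' ≤ G.dist o h + C ∧ Pc G s h h' E ∧
      ∀ x ∈ E, G.dist o h < G.dist o x ∧ G.dist o x ≤ G.dist o h' := fun h a b => by
    obtain ⟨h', c1, c2, c3, l, c4, c5, c6⟩ := hs h a b
    obtain ⟨E, e1, e2⟩ := pc_of_seg c2 c4 c5 c6
    exact ⟨h', E, c1, c2, c3, e1, e2⟩
  choose! nx Ex hnx using h1
  have h2 : ∀ n, n ≤ M → Up G o T Set.univ (nx^[n] o) ∧ G.dist o (nx^[n] o) ≤ n * C := by
    intro n
    induction n with
    | zero => exact fun _ => ⟨ho, by simp⟩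
    | succ n ih =>
      intro hn
      obtain ⟨a, b⟩ := ih (by omega)
      have b1 : (n + 1) * C ≤ M * C := Nat.mul_le_mul_right _ hn
      have b2 : (n + 1) * C = n * C + C := by ring
      have := hnx _ a (by omega)
      rw [Function.iterate_succ_apply']
      exact ⟨this.1, by omega⟩
  have h3 : ∀ n, n < M → G.dist o (nx^[n] o) < G.dist o (nx^[n + 1] o) ∧
      Pc G s (nx^[n] o) (nx^[n + 1] o) (Ex (nx^[n] o)) ∧ ∀ x ∈ Ex (nx^[n] o),
        G.dist o (nx^[n] o) < G.dist o x ∧ G.dist o x ≤ G.dist o (nx^[n + 1] o) := by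
    intro n hn
    obtain ⟨a, b⟩ := h2 n hn.le
    have b1 : (n + 1) * C ≤ M * C := Nat.mul_le_mul_right _ hn
    have b2 : (n + 1) * C = n * C + C := by ring
    have := hnx _ a (by omega)
    rw [Function.iterate_succ_apply']
    exact ⟨this.2.1, this.2.2.2.1, this.2.2.2.2⟩
  have h4 : ∀ n k, n + k ≤ M → G.dist o (nx^[n] o) ≤ G.dist o (nx^[n + k] o) := by
    intro n k
    induction k with
    | zero => exact fun _ => le_rfl
    | succ k ih => exact fun h => (ih (by omega)).trans (h3 (n + k) (by omega)).1.le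
  refine ⟨fun n => (nx^[n] o, Ex (nx^[n] o)), fun n hn => (h3 n hn).2.1, fun n m h5 h6 => ?_⟩
  rw [Set.disjoint_left]
  intro x hx hx'
  have a1 := ((h3 n (by omega)).2.2 x hx).2
  have a2 := ((h3 m h6).2.2 x hx').1
  have a3 := h4 (n + 1) (m - (n + 1)) (by omega)
  rw [show n + 1 + (m - (n + 1)) = m by omega] at a3
  omega

end Pool.Agent.P.MP_bb4f54_co.Tr
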